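import Pool.Agent.TorusIdx.HalfSystem

/-!
# The combinatorial part of the criterion of Reid and Tai
-/

namespace Pool.Agent.TorusIdx

theorem sum_ge_of_count (s : Finset ℕ) (f : ℕ → ℕ)
    (hf : ∀ x, (s.filter (fun a => f a ≤ x)).card ≤ x) :
    s.card * (s.card + 1) ≤ 2 * ∑ a ∈ s, f a := by
  set n := s.card with hn
  have h1 : ∀ a ∈ s, ((Finset.range n).filter (fun x => x < f a)).card ≤ f a := by
    intro a _
    calc ((Finset.range n).filter (fun x => x < f a)).card
        ≤ (Finset.range (f a)).card := by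
          apply Finset.card_le_card
          intro x hx
          exact Finset.mem_range.mpr (Finset.mem_filter.mp hx).2
      _ = f a := Finset.card_range _
  have h2 : ∑ a ∈ s, ((Finset.range n).filter (fun x => x < f a)).card ≤ ∑ a ∈ s, f a :=
    Finset.sum_le_sum h1
  have h3 : ∑ a ∈ s, ((Finset.range n).filter (fun x => x < f a)).card =
      ∑ x ∈ Finset.range n, (s.filter (fun a => x < f a)).card := by
    simp_rw [Finset.card_filter]
    exact Finset.sum_comm
  have h4 : ∀ x ∈ Finset.range n, n - x ≤ (s.filter (fun a => x < f a)).card := by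
    intro x _
    have h5 := Finset.card_filter_add_card_filter_not (s := s) (fun a => f a ≤ x)
    have h6 := hf x
    have h7 : (s.filter (fun a => ¬ f a ≤ x)) = s.filter (fun a => x < f a) := by
      apply Finset.filter_congr
      intro a _
      exact not_le
    rw [h7] at h5
    omega
  have h5 : ∑ x ∈ Finset.range n, (n - x) ≤ ∑ x ∈ Finset.range n,
      (s.filter (fun a => x < f a)).card := Finset.sum_le_sum h4
  have h6 : ∀ m : ℕ, 2 * ∑ x ∈ Finset.range m, (m - x) = m * (m + 1) := by
    intro m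
    have h7 : ∑ x ∈ Finset.range m, (m - x) = ∑ x ∈ Finset.range m, (x + 1) := by
      rw [← Finset.sum_range_reflect]
      apply Finset.sum_congr rfl
      intro x hx
      have := Finset.mem_range.mp hx
      omega
    rw [h7, Finset.sum_add_distrib, Finset.sum_const, Finset.card_range, smul_eq_mul, mul_one,
      mul_add, mul_comm 2 (∑ x ∈ Finset.range m, x), Finset.sum_range_id_mul_two]
    rcases m with _ | m
    · simp
    · simp only [Nat.add_sub_cancel]
      ring
  have h7 := h6 n
  omega

theorem count_le (q : ℕ) (hq : 0 < q) (c : ℕ) (hc : ¬ q ∣ c) (Φ : Finset ℕ)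
    (hlt : ∀ a ∈ Φ, a < q) (hcop : ∀ a ∈ Φ, a.Coprime q) (x : ℕ) :
    (Φ.filter (fun a => (c * a) % q ≤ x)).card ≤ x := by
  obtain ⟨g, c', q', hg, hcq, hc', hq'⟩ : ∃ g c' q', 0 < g ∧ Nat.Coprime c' q' ∧
      c = c' * g ∧ q = q' * g := by
    have hg : 0 < Nat.gcd c q := Nat.gcd_pos_of_pos_right _ hq
    obtain ⟨c', q', h1, h2, h3⟩ := Nat.exists_coprime c q
    exact ⟨Nat.gcd c q, c', q', hg, h1, h2, h3⟩
  have hq'1 : 1 < q' := by
    rcases Nat.lt_or_ge 1 q' with h | h
    · exact h
    · exfalso
      apply hc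
      have h1 : q' = 1 := by
        rcases Nat.eq_zero_or_pos q' with h0 | h0
        · rw [h0, zero_mul] at hq'
          omega
        · omega
      rw [h1, one_mul] at hq'
      rw [hc', hq']
      exact dvd_mul_left _ _
  have hval : ∀ a, (c * a) % q = ((c' * a) % q') * g := by
    intro a
    rw [hc', hq', show c' * g * a = (c' * a) * g by ring, Nat.mul_mod_mul_right]
  have hpos : ∀ a ∈ Φ, 1 ≤ (c' * a) % q' := by
    intro a ha
    have h1 : a.Coprime q' := Nat.Coprime.coprime_dvd_right ⟨g, hq'⟩ (hcop a ha)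
    have h2 : (c' * a).Coprime q' := Nat.Coprime.mul_left hcq h1
    by_contra h3
    have h4 : (c' * a) % q' = 0 := by omega
    have h5 : q' ∣ c' * a := Nat.dvd_of_mod_eq_zero h4
    have h6 := Nat.Coprime.eq_one_of_dvd h2.symm h5
    omega
  calc (Φ.filter (fun a => (c * a) % q ≤ x)).card
      ≤ ((Finset.Icc 1 (x / g)) ×ˢ (Finset.range g)).card := by
        apply Finset.card_le_card_of_injOn (fun a => ((c' * a) % q', a / q'))
        · intro a ha
          obtain ⟨ha1, ha2⟩ := Finset.mem_filter.mp ha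
          rw [hval a] at ha2
          simp only [Finset.coe_product, Set.mem_prod, Finset.mem_coe, Finset.mem_Icc,
            Finset.mem_range]
          refine ⟨⟨hpos a ha1, (Nat.le_div_iff_mul_le hg).mpr ha2⟩, ?_⟩
          rw [Nat.div_lt_iff_lt_mul (by omega), mul_comm, ← hq']
          exact hlt a ha1
        · intro a ha b hb hab
          simp only [Prod.mk.injEq] at hab
          obtain ⟨h1, h2⟩ := hab
          have h3 : a ≡ b [MOD q'] := by
            apply Nat.ModEq.cancel_left_of_coprime (c := c')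
            · rw [Nat.gcd_comm]
              exact hcq
            · exact h1
          have h4 : a % q' = b % q' := h3
          rw [← Nat.div_add_mod a q', ← Nat.div_add_mod b q', h2, h4]
    _ = (x / g) * g := by
        rw [Finset.card_product, Nat.card_Icc, Finset.card_range, Nat.add_sub_cancel]
    _ ≤ x := Nat.div_mul_le_self x g

theorem age_sum_ge (p k d : ℕ) (hp : p.Prime) (hk : 0 < k) (hphi : (p ^ k).totient = 2 * d)
    (h5 : p ≠ 2 → 5 ≤ d) (h7 : p = 2 → 7 ≤ d) (Φ : Finset ℕ) (h : HalfSystem (p ^ k) Φ)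
    (c : ℕ) (hc : ¬ p ^ k ∣ c) : p ^ k ≤ ∑ a ∈ Φ, (c * a) % (p ^ k) := by
  have hd5 : 5 ≤ d := by
    by_cases h2 : p = 2
    · have := h7 h2
      omega
    · exact h5 h2
  rw [Nat.totient_prime_pow hp hk] at hphi
  have hpk : p ^ k = p ^ (k - 1) * p := by
    rw [← pow_succ]
    congr 1
    omega
  have hq2 : 2 < p ^ k := by
    have h1 : 10 ≤ p ^ (k - 1) * (p - 1) := by omega
    have h2 : p ^ (k - 1) * (p - 1) ≤ p ^ (k - 1) * p := Nat.mul_le_mul_left _ (by omega)
    omega
  have hcard := h.card hq2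
  rw [Nat.totient_prime_pow hp hk, hphi] at hcard
  have hcard' : Φ.card = d := by omega
  have h1 := sum_ge_of_count Φ (fun a => (c * a) % (p ^ k))
    (fun x => count_le (p ^ k) (by omega) c hc Φ h.lt h.cop x)
  rw [hcard'] at h1
  by_cases h2 : p = 2
  · have h3 := h7 h2
    subst h2
    have h4 : 2 ^ k = 4 * d := by
      rw [hpk]
      simp only [Nat.add_one_sub_one, mul_one] at hphi
      omega
    rw [h4] at h1 ⊢
    nlinarith
  · have h3 : 3 ≤ p := by
      have := hp.two_le
      omega
    obtain ⟨u, hu⟩ : ∃ u, p = u + 1 := ⟨p - 1, by omega⟩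
    have h4 : p ^ (k - 1) * p ≤ 3 * d := by
      rw [hu] at hphi ⊢
      rw [Nat.add_sub_cancel] at hphi
      have h6 : 2 ≤ u := by omega
      nlinarith
    rw [hpk] at h1 ⊢
    nlinarith

theorem age_sum_sixteen : ∀ c < 16, c ≠ 0 → 16 ≤ ∑ a ∈ twoType 16, (c * a) % 16 := by
  decide

end Pool.Agent.TorusIdx
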