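import Pool.Agent.TorusIdx.Defs

/-!
# The integral characteristic polynomial of a linear map preserving a lattice
-/

namespace Pool.Agent.TorusIdx

open Polynomial Module

variable {V : Type} [NormedAddCommGroup V] [NormedSpace ℂ V] [FiniteDimensional ℂ V]

theorem exists_int_charpoly (L : Submodule ℤ V) [DiscreteTopology L] [IsZLattice ℝ L]
    (B : V →ₗ[ℂ] V) (hB : ∀ v ∈ L, B v ∈ L) :
    ∃ Q : ℤ[X], Q.Monic ∧ Q.natDegree = 2 * finrank ℂ V ∧
      Q.map (Int.castRingHom ℂ) = B.charpoly * B.charpoly.map (starRingEnd ℂ) := by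
  have : FiniteDimensional ℝ V := FiniteDimensional.complexToReal V
  have := ZLattice.module_free ℝ L
  have := ZLattice.module_finite ℝ L
  let BZ : V →ₗ[ℤ] V := B.restrictScalars ℤ
  have hBZ : ∀ v ∈ L, BZ v ∈ L := hB
  let BL : L →ₗ[ℤ] L := BZ.restrict hBZ
  let BR : V →ₗ[ℝ] V := B.restrictScalars ℝ
  have hreal : BL.charpoly.map (Int.castRingHom ℝ) = BR.charpoly := by
    classical
    let b := Module.Free.chooseBasis ℤ L
    let bR := b.ofZLatticeBasis ℝ L
    rw [← LinearMap.charpoly_toMatrix BL b, ← LinearMap.charpoly_toMatrix BR bR,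
      ← Matrix.charpoly_map]
    congr 1
    ext i j
    rw [Matrix.map_apply, LinearMap.toMatrix_apply, LinearMap.toMatrix_apply]
    have h1 : BR (bR j) = ((BL (b j) : L) : V) := by
      simp [BR, BL, BZ, bR]
    rw [h1, Module.Basis.ofZLatticeBasis_repr_apply]
    simp
  refine ⟨BL.charpoly, BL.charpoly_monic, ?_, ?_⟩
  · rw [LinearMap.charpoly_natDegree, ZLattice.rank ℝ L, finrank_real_of_complex]
  · have hinf : Set.Infinite (Set.range (fun t : ℝ => (t : ℂ))) :=
      Set.infinite_range_of_injective Complex.ofReal_injective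
    refine Polynomial.eq_of_infinite_eval_eq _ _ (hinf.mono ?_)
    rintro _ ⟨t, rfl⟩
    change (BL.charpoly.map (Int.castRingHom ℂ)).eval (t : ℂ) =
      (B.charpoly * B.charpoly.map (starRingEnd ℂ)).eval (t : ℂ)
    have h2 : (BL.charpoly.map (Int.castRingHom ℂ)).eval (t : ℂ) =
        (((BL.charpoly.map (Int.castRingHom ℝ)).eval t : ℝ) : ℂ) := by
      have : Int.castRingHom ℂ = (Complex.ofRealHom).comp (Int.castRingHom ℝ) :=
        RingHom.ext_int _ _
      rw [this, ← Polynomial.map_map]
      have h3 := Polynomial.eval_map_apply (f := Complex.ofRealHom)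
        (p := BL.charpoly.map (Int.castRingHom ℝ)) (x := t)
      simpa using h3
    have h4 : (BR.charpoly.eval t : ℝ) = Complex.normSq (B.charpoly.eval (t : ℂ)) := by
      rw [LinearMap.eval_charpoly, LinearMap.eval_charpoly]
      have h5 : (algebraMap ℝ (End ℝ V) t - BR) =
          ((algebraMap ℂ (End ℂ V) (t : ℂ) - B).restrictScalars ℝ) := by
        ext v
        simp [BR, Module.algebraMap_end_apply]
      rw [h5, LinearMap.det_restrictScalars, Algebra.norm_complex_apply]
    rw [h2, hreal, h4, Polynomial.eval_mul]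
    have h6 : (B.charpoly.map (starRingEnd ℂ)).eval (t : ℂ) =
        (starRingEnd ℂ) (B.charpoly.eval (t : ℂ)) := by
      have h7 := Polynomial.eval_map_apply (f := starRingEnd ℂ) (p := B.charpoly) (x := (t : ℂ))
      simpa using h7
    rw [h6, Complex.mul_conj]

end Pool.Agent.TorusIdx
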