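import Pool.Agent.TorusIdx.Charpoly

/-!
# Counting primitive roots among the roots of an integral polynomial
-/

namespace Pool.Agent.TorusIdx

open Polynomial Module

open scoped Classical in
theorem count_primitive (n : ℕ) (hn : 0 < n) : ∀ (N : ℕ) (Q : ℤ[X]), Q ≠ 0 → Q.natDegree ≤ N →
    ∃ m : ℕ, ((Q.map (Int.castRingHom ℂ)).roots.filter
      (fun z => IsPrimitiveRoot z n)).card = m * n.totient := by
  intro N
  induction N with
  | zero =>
    intro Q hQ hdeg
    refine ⟨0, ?_⟩
    have h1 : Q.natDegree = 0 := by omega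
    obtain ⟨c, rfl⟩ := Polynomial.natDegree_eq_zero.mp h1
    simp
  | succ N ih =>
    intro Q hQ hdeg
    by_cases hex : ∃ z, z ∈ (Q.map (Int.castRingHom ℂ)).roots ∧ IsPrimitiveRoot z n
    · obtain ⟨z, hz, hprim⟩ := hex
      have hroot : Polynomial.aeval z Q = 0 := by
        have h1 := Polynomial.isRoot_of_mem_roots hz
        rw [Polynomial.IsRoot, Polynomial.eval_map] at h1
        rw [Polynomial.aeval_def]
        exact h1
      have hint : IsIntegral ℤ z := hprim.isIntegral hn
      have hdvd : cyclotomic n ℤ ∣ Q := by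
        rw [cyclotomic_eq_minpoly hprim hn]
        exact minpoly.isIntegrallyClosed_dvd hint hroot
      obtain ⟨Q', rfl⟩ := hdvd
      have hQ' : Q' ≠ 0 := right_ne_zero_of_mul hQ
      have hcyc : cyclotomic n ℤ ≠ 0 := left_ne_zero_of_mul hQ
      have hdeg' : Q'.natDegree ≤ N := by
        rw [Polynomial.natDegree_mul hcyc hQ', natDegree_cyclotomic] at hdeg
        have := Nat.totient_pos.mpr hn
        omega
      obtain ⟨m, hm⟩ := ih Q' hQ' hdeg'
      refine ⟨m + 1, ?_⟩
      have hmap : (cyclotomic n ℤ * Q').map (Int.castRingHom ℂ) =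
          cyclotomic n ℂ * Q'.map (Int.castRingHom ℂ) := by
        rw [Polynomial.map_mul, map_cyclotomic_int]
      have hne : cyclotomic n ℂ * Q'.map (Int.castRingHom ℂ) ≠ 0 := by
        rw [← hmap]
        exact (Polynomial.map_ne_zero_iff (RingHom.injective_int (Int.castRingHom ℂ))).mpr hQ
      have hn0 : NeZero (n : ℂ) := ⟨by exact_mod_cast hn.ne'⟩
      rw [hmap, Polynomial.roots_mul hne, Multiset.filter_add, Multiset.card_add, hm,
        cyclotomic.roots_eq_primitiveRoots_val]
      have h2 : Multiset.filter (fun z => IsPrimitiveRoot z n) (primitiveRoots n ℂ).val =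
          (primitiveRoots n ℂ).val := by
        rw [Multiset.filter_eq_self]
        intro a ha
        exact (mem_primitiveRoots hn).mp ha
      rw [h2]
      have h3 : Multiset.card (primitiveRoots n ℂ).val = n.totient :=
        (Complex.card_primitiveRoots n)
      rw [h3]
      ring
    · refine ⟨0, ?_⟩
      have h1 : (Q.map (Int.castRingHom ℂ)).roots.filter (fun z => IsPrimitiveRoot z n) = 0 := by
        rw [Multiset.filter_eq_nil]
        intro a ha hp
        exact hex ⟨a, ha, hp⟩
      rw [h1]
      simp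

open scoped Classical in
theorem two_mul_count (n : ℕ) (hn : 0 < n) (P : ℂ[X]) (hP : P.Monic) (Q : ℤ[X]) (hQ : Q.Monic)
    (h : Q.map (Int.castRingHom ℂ) = P * P.map (starRingEnd ℂ)) :
    ∃ m : ℕ, 2 * (P.roots.filter (fun z => IsPrimitiveRoot z n)).card = m * n.totient := by
  obtain ⟨m, hm⟩ := count_primitive n hn Q.natDegree Q hQ.ne_zero le_rfl
  refine ⟨m, ?_⟩
  rw [← hm, h]
  have hP' : (P.map (starRingEnd ℂ)).Monic := hP.map _
  have hne : P * P.map (starRingEnd ℂ) ≠ 0 := (hP.mul hP').ne_zero
  rw [Polynomial.roots_mul hne, Multiset.filter_add, Multiset.card_add]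
  have h1 : (P.map (starRingEnd ℂ)).roots = P.roots.map (starRingEnd ℂ) :=
    (IsAlgClosed.splits P).roots_map (starRingEnd ℂ)
  rw [h1, Multiset.filter_map, Multiset.card_map, two_mul]
  congr 2
  refine Multiset.filter_congr ?_
  intro z _
  change IsPrimitiveRoot z n ↔ IsPrimitiveRoot ((starRingEnd ℂ) z) n
  exact (IsPrimitiveRoot.map_iff_of_injective (RingHom.injective (starRingEnd ℂ))).symm

end Pool.Agent.TorusIdx
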