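import Pool.Agent.TorusIdx.Defs

/-!
# Cyclic extensions of a lattice by an affine automorphism
-/

namespace Pool.Agent.TorusIdx

open Module

variable {V : Type} [NormedAddCommGroup V] [NormedSpace ℂ V]

/-- Data of a lattice, a linear automorphism of it and a translation vector. -/
structure CycData (V : Type) [NormedAddCommGroup V] [NormedSpace ℂ V] where
  α : V ≃ₗ[ℂ] V
  Λ : AddSubgroup V
  t : V
  q : ℕ
  qpos : 0 < q
  αq : α ^ q = 1
  αΛ : ∀ v ∈ Λ, α v ∈ Λ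
  αt : α t = t
  tΛ : q • t ∈ Λ

namespace CycData

theorem pow_mem (D : CycData V) (n : ℕ) (v : V) (hv : v ∈ D.Λ) : (D.α ^ n) v ∈ D.Λ := by
  induction n with
  | zero => simpa using hv
  | succ n ih =>
    rw [pow_succ', LinearEquiv.mul_apply]
    exact D.αΛ _ ih

theorem zpow_mem (D : CycData V) (j : ℤ) (v : V) (hv : v ∈ D.Λ) : (D.α ^ j) v ∈ D.Λ := by
  have h1 : D.α ^ j = D.α ^ (j % D.q).toNat := by
    have hq : (0 : ℤ) < D.q := by exact_mod_cast D.qpos
    have h2 : ((j % D.q).toNat : ℤ) = j % D.q := Int.toNat_of_nonneg (Int.emod_nonneg _ hq.ne')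
    rw [← zpow_natCast, h2]
    conv_lhs => rw [← Int.emod_add_mul_ediv j D.q]
    rw [zpow_add, zpow_mul, zpow_natCast, D.αq, one_zpow, mul_one]
  rw [h1]
  exact D.pow_mem _ v hv

theorem zpow_t (D : CycData V) (j : ℤ) : (D.α ^ j) D.t = D.t := by
  have h1 : ∀ n : ℕ, (D.α ^ n) D.t = D.t := by
    intro n
    induction n with
    | zero => simp
    | succ n ih => rw [pow_succ', LinearEquiv.mul_apply, ih, D.αt]
  have h2 : D.α ^ j = D.α ^ (j % D.q).toNat := by
    have hq : (0 : ℤ) < D.q := by exact_mod_cast D.qpos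
    have h2 : ((j % D.q).toNat : ℤ) = j % D.q := Int.toNat_of_nonneg (Int.emod_nonneg _ hq.ne')
    rw [← zpow_natCast, h2]
    conv_lhs => rw [← Int.emod_add_mul_ediv j D.q]
    rw [zpow_add, zpow_mul, zpow_natCast, D.αq, one_zpow, mul_one]
  rw [h2]
  exact h1 _

theorem apply_eq (γ : V ≃ᵃ[ℂ] V) (v : V) : γ v = γ.linear v + γ 0 := by
  have h1 := γ.map_vadd 0 v
  simpa using h1

/-- The group generated by the lattice and `v ↦ α v + t`. -/
def group (D : CycData V) : Subgroup (V ≃ᵃ[ℂ] V) where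
  carrier := {γ | ∃ j : ℤ, γ.linear = D.α ^ j ∧ γ 0 - j • D.t ∈ D.Λ}
  one_mem' := by
    refine ⟨0, ?_, ?_⟩
    · rw [zpow_zero]
      rfl
    · simp
  mul_mem' := by
    rintro γ γ' ⟨j, hj, hj'⟩ ⟨k, hk, hk'⟩
    refine ⟨j + k, ?_, ?_⟩
    · rw [zpow_add, ← hj, ← hk]
      exact map_mul AffineEquiv.linearHom γ γ'
    · have h1 : (γ * γ') 0 = γ.linear (γ' 0) + γ 0 := apply_eq γ (γ' 0)
      have h2 : (γ * γ') 0 - (j + k) • D.t =
          (D.α ^ j) (γ' 0 - k • D.t) + (γ 0 - j • D.t) := by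
        rw [h1, hj, map_sub, map_zsmul, D.zpow_t, add_smul]
        abel
      rw [h2]
      exact D.Λ.add_mem (D.zpow_mem j _ hk') hj'
  inv_mem' := by
    rintro γ ⟨j, hj, hj'⟩
    refine ⟨-j, ?_, ?_⟩
    · rw [zpow_neg, ← hj]
      exact map_inv AffineEquiv.linearHom γ
    · have h1 : γ (γ⁻¹ 0) = 0 := by
        rw [AffineEquiv.inv_def, AffineEquiv.apply_symm_apply]
      rw [apply_eq γ (γ⁻¹ 0), hj] at h1
      have h2 : γ⁻¹ 0 = - (D.α ^ (-j)) (γ 0) := by
        have h3 : (D.α ^ (-j)) ((D.α ^ j) (γ⁻¹ 0) + γ 0) = 0 := by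
          rw [h1, map_zero]
        rw [map_add, ← LinearEquiv.mul_apply, ← zpow_add, neg_add_cancel, zpow_zero] at h3
        exact eq_neg_of_add_eq_zero_left h3
      have h4 : γ⁻¹ 0 - (-j) • D.t = -((D.α ^ (-j)) (γ 0 - j • D.t)) := by
        rw [h2, map_sub, map_zsmul, D.zpow_t, neg_smul]
        abel
      rw [h4]
      exact D.Λ.neg_mem (D.zpow_mem (-j) _ hj')

theorem mem_group (D : CycData V) (γ : V ≃ᵃ[ℂ] V) :
    γ ∈ D.group ↔ ∃ j : ℤ, γ.linear = D.α ^ j ∧ γ 0 - j • D.t ∈ D.Λ := Iff.rfl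

theorem translations_group (D : CycData V) (hord : ∀ j : ℤ, D.α ^ j = 1 → (D.q : ℤ) ∣ j) :
    translations D.group = D.Λ := by
  ext v
  change AffineEquiv.constVAdd ℂ V v ∈ D.group ↔ v ∈ D.Λ
  rw [mem_group]
  have hlin : (AffineEquiv.constVAdd ℂ V v).linear = 1 := rfl
  have h0 : (AffineEquiv.constVAdd ℂ V v) 0 = v := by simp
  rw [hlin, h0]
  constructor
  · rintro ⟨j, hj, hj'⟩
    obtain ⟨c, rfl⟩ := hord j hj.symm
    have h1 : ((D.q : ℤ) * c) • D.t ∈ D.Λ := by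
      rw [mul_comm, mul_smul]
      apply D.Λ.zsmul_mem
      have := D.tΛ
      rwa [← natCast_zsmul] at this
    have h2 := D.Λ.add_mem hj' h1
    simpa using h2
  · intro hv
    exact ⟨0, by rw [zpow_zero], by simpa using hv⟩

theorem finite_linear (D : CycData V) :
    Set.Finite ((fun γ : V ≃ᵃ[ℂ] V => γ.linear) '' (D.group : Set (V ≃ᵃ[ℂ] V))) := by
  have h1 : (Set.range (fun n : Fin D.q => D.α ^ (n : ℕ))).Finite := Set.finite_range _
  refine h1.subset ?_
  rintro _ ⟨γ, ⟨j, hj, -⟩, rfl⟩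
  have hq : (0 : ℤ) < D.q := by exact_mod_cast D.qpos
  have h2 : ((j % D.q).toNat : ℤ) = j % D.q := Int.toNat_of_nonneg (Int.emod_nonneg _ hq.ne')
  refine ⟨⟨(j % D.q).toNat, ?_⟩, ?_⟩
  · have := Int.emod_lt_of_pos j hq
    omega
  · simp only
    rw [hj, ← zpow_natCast, h2]
    conv_rhs => rw [← Int.emod_add_mul_ediv j D.q]
    rw [zpow_add, zpow_mul, zpow_natCast, D.αq, one_zpow, mul_one]

/-- The affine generator `v ↦ α v + t`. -/
def gen (D : CycData V) : V ≃ᵃ[ℂ] V :=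
  AffineEquiv.constVAdd ℂ V D.t * D.α.toAffineEquiv

theorem gen_linear (D : CycData V) : D.gen.linear = D.α := by
  have h1 : D.gen.linear = (AffineEquiv.constVAdd ℂ V D.t).linear * D.α.toAffineEquiv.linear :=
    map_mul AffineEquiv.linearHom _ _
  rw [h1]
  rfl

theorem gen_mem (D : CycData V) : D.gen ∈ D.group := by
  rw [mem_group]
  refine ⟨1, ?_, ?_⟩
  · rw [zpow_one]
    exact D.gen_linear
  · have : D.gen 0 = D.t := by
      simp [gen]
    rw [this]
    simp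

/-- A translation with a fixed point is the identity. -/
theorem eq_one_of_linear (γ : V ≃ᵃ[ℂ] V) (h : γ.linear = 1) (z : V) (hz : γ z = z) : γ = 1 := by
  have h1 := apply_eq γ z
  rw [hz, h] at h1
  have h2 : γ 0 = 0 := by
    have h3 : z = z + γ 0 := h1
    exact left_eq_add.mp h3
  ext x
  have h3 := apply_eq γ x
  rw [h, h2] at h3
  rw [h3]
  simp

end CycData

end Pool.Agent.TorusIdx
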