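import Mathlib

/-!
# Quotients of complex tori by finite groups

A quotient of a complex torus `V / Λ` by a finite group of automorphisms is the quotient of the
complex vector space `V` by a group `Γ` of complex affine transformations whose translations form
a lattice `Λ` and whose linear parts form a finite group.
-/

namespace Pool.Agent.TorusIdx

open Complex Module

section

variable {V : Type} [NormedAddCommGroup V] [NormedSpace ℂ V]

/-- The translations in `Γ`, as an additive subgroup of `V`. -/
def translations (Γ : Subgroup (V ≃ᵃ[ℂ] V)) : AddSubgroup V where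
  carrier := {v | AffineEquiv.constVAdd ℂ V v ∈ Γ}
  zero_mem' := by
    change AffineEquiv.constVAdd ℂ V (0 : V) ∈ Γ
    rw [AffineEquiv.constVAdd_zero]
    exact Γ.one_mem
  add_mem' := by
    intro a b ha hb
    change AffineEquiv.constVAdd ℂ V (a + b) ∈ Γ
    have h : AffineEquiv.constVAdd ℂ V (a + b) =
        AffineEquiv.constVAdd ℂ V a * AffineEquiv.constVAdd ℂ V b := by
      ext x
      simp
    rw [h]
    exact Γ.mul_mem ha hb
  neg_mem' := by
    intro a ha
    change AffineEquiv.constVAdd ℂ V (-a) ∈ Γ
    have h : AffineEquiv.constVAdd ℂ V (-a) = (AffineEquiv.constVAdd ℂ V a)⁻¹ := by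
      rw [AffineEquiv.inv_def, AffineEquiv.constVAdd_symm]
    rw [h]
    exact Γ.inv_mem ha

/-- `V / Γ` is the quotient of a complex torus by a finite group acting freely in codimension
one: the translations of `Γ` form a full lattice `Λ` of `V`, the linear parts of the elements of
`Γ` form a finite group (isomorphic to `Γ / Λ`), and the fixed locus of a nontrivial element of
`Γ`, when it is not empty, has codimension at least two. -/
structure IsTorusQuotient (Γ : Subgroup (V ≃ᵃ[ℂ] V)) : Prop where
  discrete : DiscreteTopology (translations Γ)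
  span : Submodule.span ℝ (translations Γ : Set V) = ⊤
  finite : Set.Finite ((fun γ : V ≃ᵃ[ℂ] V => γ.linear) '' (Γ : Set (V ≃ᵃ[ℂ] V)))
  free : ∀ γ ∈ Γ, γ ≠ 1 → (∃ z, γ z = z) →
    finrank ℂ (LinearMap.ker (γ.linear.toLinearMap - LinearMap.id)) + 2 ≤ finrank ℂ V

/-- The age of a linear map: the sum of the numbers `θ ∈ [0, 1)`, where `exp (2 π i θ)` runs
through the eigenvalues counted with multiplicity (which lie on the unit circle when the map has
finite order). -/
noncomputable def age [FiniteDimensional ℂ V] (A : V →ₗ[ℂ] V) : ℝ :=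
  (A.charpoly.roots.map (fun μ => Int.fract (Complex.arg μ / (2 * Real.pi)))).sum

/-- `V / Γ` has canonical singularities, by the criterion of Reid and Tai: every nontrivial element
of `Γ` with a fixed point has age at least one. -/
def HasCanonicalSingularities [FiniteDimensional ℂ V] (Γ : Subgroup (V ≃ᵃ[ℂ] V)) : Prop :=
  ∀ γ ∈ Γ, γ ≠ 1 → (∃ z, γ z = z) → 1 ≤ age γ.linear.toLinearMap

/-- `V / Γ` is a projective variety: the torus `V / Λ` is an abelian variety, that is, there is a
positive definite Hermitian form on `V` whose imaginary part is integral on `Λ`. -/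
def IsProjective (Γ : Subgroup (V ≃ᵃ[ℂ] V)) : Prop :=
  ∃ H : V → V → ℂ,
    (∀ u v w, H (u + v) w = H u w + H v w) ∧
    (∀ (c : ℂ) v w, H (c • v) w = c * H v w) ∧
    (∀ v w, H w v = (starRingEnd ℂ) (H v w)) ∧
    (∀ v, v ≠ 0 → 0 < (H v v).re) ∧
    (∀ v ∈ translations Γ, ∀ w ∈ translations Γ, ∃ n : ℤ, (H v w).im = n)

/-- `m K ∼ 0` on `V / Γ`: there is a pluricanonical form `f (z) (dz₁ ∧ ⋯ ∧ dz_d)^m` on `V`, with
`f` holomorphic and without zeros, which is invariant under `Γ`. -/
def CanonicalPowerTrivial (Γ : Subgroup (V ≃ᵃ[ℂ] V)) (m : ℕ) : Prop :=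
  ∃ f : V → ℂ, Differentiable ℂ f ∧ (∀ z, f z ≠ 0) ∧
    ∀ γ ∈ Γ, ∀ z, f (γ z) * (LinearMap.det γ.linear.toLinearMap) ^ m = f z

end

/-- The optimal index: the power of `2` is the largest one which is at most `2 d`, and the power of
an odd prime `p` is the largest power `p ^ k` with `p ^ (k - 1) * (p - 1) ≤ 2 d`. -/
def torusIndex (d : ℕ) : ℕ :=
  2 ^ Nat.log 2 (2 * d) *
    ∏ p ∈ (Finset.range (2 * d + 2)).filter (fun p => p.Prime ∧ p ≠ 2),
      p ^ (Nat.log p (2 * d / (p - 1)) + 1)

end Pool.Agent.TorusIdx
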