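import Pool.Agent.TorusIdx.HalfSystem

/-!
# The lattice of a cyclotomic ring in the vector space of a CM type
-/

namespace Pool.Agent.TorusIdx

open Polynomial Module

/-- The number `exp (2 π i a / q)`. -/
noncomputable def root (q a : ℕ) : ℂ :=
  Complex.exp (2 * Real.pi * Complex.I * ((a : ℂ) / (q : ℂ)))

theorem root_prim (q a : ℕ) (hq : q ≠ 0) (ha : a.Coprime q) : IsPrimitiveRoot (root q a) q :=
  Complex.isPrimitiveRoot_exp_of_coprime a q hq ha

theorem root_pow_q (q a : ℕ) (hq : q ≠ 0) : root q a ^ q = 1 := by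
  rw [root, ← Complex.exp_nat_mul]
  have h1 : (q : ℂ) ≠ 0 := by exact_mod_cast hq
  have h2 : (q : ℂ) * (2 * Real.pi * Complex.I * ((a : ℂ) / (q : ℂ))) =
      (a : ℂ) * (2 * Real.pi * Complex.I) := by
    field_simp
  rw [h2, Complex.exp_nat_mul, Complex.exp_two_pi_mul_I, one_pow]

theorem root_sub (q a : ℕ) (hq : q ≠ 0) (ha : a ≤ q) :
    root q (q - a) = (starRingEnd ℂ) (root q a) := by
  have h1 : (q : ℂ) ≠ 0 := by exact_mod_cast hq
  rw [root, root, ← Complex.exp_conj, Nat.cast_sub ha]
  have h2 : (2 * Real.pi * Complex.I * (((q : ℂ) - (a : ℂ)) / (q : ℂ))) =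
      2 * Real.pi * Complex.I + -(2 * Real.pi * Complex.I * ((a : ℂ) / (q : ℂ))) := by
    field_simp
    ring
  have h3 : (starRingEnd ℂ) (2 * Real.pi * Complex.I * ((a : ℂ) / (q : ℂ))) =
      -(2 * Real.pi * Complex.I * ((a : ℂ) / (q : ℂ))) := by
    have h4 : (starRingEnd ℂ) (2 : ℂ) = 2 := map_ofNat _ 2
    simp [map_mul, map_div₀, Complex.conj_I, h4]
  rw [h2, h3, Complex.exp_add, Complex.exp_two_pi_mul_I, one_mul]

/-- Evaluation of an integral polynomial at the roots of unity of a half system. -/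
noncomputable def ev (q : ℕ) (Φ : Finset ℕ) : ℤ[X] →+ (Φ → ℂ) where
  toFun P := fun a => aeval (root q a) P
  map_zero' := by
    ext a
    simp
  map_add' P Q := by
    ext a
    simp

@[simp] theorem ev_apply (q : ℕ) (Φ : Finset ℕ) (P : ℤ[X]) (a : Φ) :
    ev q Φ P a = aeval (root q a) P := rfl

/-- The image of the cyclotomic ring. -/
noncomputable def cycLattice (q : ℕ) (Φ : Finset ℕ) : AddSubgroup (Φ → ℂ) := (ev q Φ).range

theorem mem_cycLattice (q : ℕ) (Φ : Finset ℕ) (v : Φ → ℂ) :
    v ∈ cycLattice q Φ ↔ ∃ P : ℤ[X], ∀ a : Φ, aeval (root q a) P = v a := by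
  constructor
  · rintro ⟨P, rfl⟩
    exact ⟨P, fun a => rfl⟩
  · rintro ⟨P, hP⟩
    exact ⟨P, funext hP⟩

/-- The powers of the root of unity. -/
noncomputable def powVec (q : ℕ) (Φ : Finset ℕ) (k : ℕ) : Φ → ℂ := fun a => root q a ^ k

theorem powVec_linearIndependent (q : ℕ) (hq : 2 < q) (Φ : Finset ℕ) (h : HalfSystem q Φ) :
    LinearIndependent ℝ (fun k : Fin q.totient => powVec q Φ k) := by
  rw [Fintype.linearIndependent_iff]
  intro g hg i
  let P : ℝ[X] := ∑ k : Fin q.totient, Polynomial.monomial (k : ℕ) (g k)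
  have hdeg : P.degree < q.totient := by
    refine lt_of_le_of_lt (Polynomial.degree_sum_le _ _) ?_
    rw [Finset.sup_lt_iff (WithBot.bot_lt_coe _)]
    intro k _
    refine lt_of_le_of_lt (Polynomial.degree_monomial_le _ _) ?_
    exact_mod_cast k.2
  have hev : ∀ z : ℂ, aeval z P = ∑ k : Fin q.totient, (g k : ℂ) * z ^ (k : ℕ) := by
    intro z
    simp only [P, map_sum, Polynomial.aeval_monomial]
    rfl
  have hΦ : ∀ a ∈ Φ, aeval (root q a) P = 0 := by
    intro a ha
    rw [hev]
    have h1 := congrFun hg ⟨a, ha⟩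
    simp only [Finset.sum_apply, Pi.smul_apply, powVec, Pi.zero_apply, Complex.real_smul] at h1
    exact h1
  have hconj : ∀ a ∈ Φ, aeval (root q (q - a)) P = 0 := by
    intro a ha
    rw [root_sub q a (by omega) (h.lt a ha).le, hev]
    have h1 := congrArg (starRingEnd ℂ) (hΦ a ha)
    rw [hev, map_sum, map_zero] at h1
    rw [← h1]
    apply Finset.sum_congr rfl
    intro k _
    rw [map_mul, map_pow, Complex.conj_ofReal]
  have hall : ∀ z ∈ primitiveRoots q ℂ, (P.map (algebraMap ℝ ℂ)).IsRoot z := by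
    intro z hz
    rw [mem_primitiveRoots (by omega)] at hz
    obtain ⟨a, haq, hac, rfl⟩ := (Complex.isPrimitiveRoot_iff z q (by omega)).mp hz
    rw [Polynomial.IsRoot, Polynomial.eval_map_algebraMap]
    change aeval (root q a) P = 0
    by_cases hm : a ∈ Φ
    · exact hΦ a hm
    · have h1 : q - a ∈ Φ := by
        by_contra h2
        exact hm ((h.half a haq hac).mpr h2)
      have h2 := hconj (q - a) h1
      have h3 : q - (q - a) = a := by omega
      rwa [h3] at h2
  have hP0 : P.map (algebraMap ℝ ℂ) = 0 := by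
    by_contra hne
    have h1 : (primitiveRoots q ℂ).val ≤ (P.map (algebraMap ℝ ℂ)).roots := by
      rw [Multiset.le_iff_subset (primitiveRoots q ℂ).nodup]
      intro z hz
      exact (Polynomial.mem_roots hne).mpr (hall z hz)
    have h2 := Multiset.card_le_card h1
    have h3 : Multiset.card (primitiveRoots q ℂ).val = q.totient := Complex.card_primitiveRoots q
    have h4 := Polynomial.card_roots' (P.map (algebraMap ℝ ℂ))
    have h5 : P ≠ 0 := by
      rintro h6
      exact hne (by rw [h6, Polynomial.map_zero])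
    have h6 : (P.map (algebraMap ℝ ℂ)).natDegree < q.totient := by
      rw [Polynomial.natDegree_map]
      exact (Polynomial.natDegree_lt_iff_degree_lt h5).mpr hdeg
    omega
  have hP : P = 0 := by
    apply Polynomial.map_injective (algebraMap ℝ ℂ) (algebraMap ℝ ℂ).injective
    rw [hP0, Polynomial.map_zero]
  have h1 : P.coeff (i : ℕ) = g i := by
    simp only [P, Polynomial.finsetSum_coeff, Polynomial.coeff_monomial]
    rw [Finset.sum_eq_single i]
    · simp
    · intro j _ hji
      rw [if_neg]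
      intro h2
      exact hji (Fin.ext h2)
    · intro h2
      exact absurd (Finset.mem_univ i) h2
  rw [← h1, hP, Polynomial.coeff_zero]

theorem finrank_fun (q : ℕ) (hq : 2 < q) (Φ : Finset ℕ) (h : HalfSystem q Φ) :
    Fintype.card (Fin q.totient) = finrank ℝ (Φ → ℂ) := by
  rw [Fintype.card_fin, finrank_real_of_complex, Module.finrank_fintype_fun_eq_card,
    Fintype.card_coe, ← h.card hq]

/-- The real basis of powers of the root of unity. -/
noncomputable def powBasis (q : ℕ) (hq : 2 < q) (Φ : Finset ℕ) (h : HalfSystem q Φ) :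
    Basis (Fin q.totient) ℝ (Φ → ℂ) :=
  haveI : Nonempty (Fin q.totient) := ⟨⟨0, Nat.totient_pos.mpr (by omega)⟩⟩
  basisOfLinearIndependentOfCardEqFinrank (powVec_linearIndependent q hq Φ h)
    (finrank_fun q hq Φ h)

theorem powBasis_apply (q : ℕ) (hq : 2 < q) (Φ : Finset ℕ) (h : HalfSystem q Φ)
    (k : Fin q.totient) : powBasis q hq Φ h k = powVec q Φ k := by
  simp [powBasis]

theorem cycLattice_eq (q : ℕ) (hq : 2 < q) (Φ : Finset ℕ) (h : HalfSystem q Φ) :
    AddSubgroup.toIntSubmodule (cycLattice q Φ) =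
      Submodule.span ℤ (Set.range (powBasis q hq Φ h)) := by
  apply le_antisymm
  · intro v hv
    have hv' : v ∈ cycLattice q Φ := hv
    rw [mem_cycLattice] at hv'
    obtain ⟨P, hP⟩ := hv'
    have hmon : (cyclotomic q ℤ).Monic := cyclotomic.monic q ℤ
    set R := P %ₘ cyclotomic q ℤ with hR
    have hRdeg : R.natDegree < q.totient := by
      have h1 := Polynomial.natDegree_modByMonic_lt P hmon (by
        intro h2
        have h3 := congrArg Polynomial.natDegree h2
        rw [natDegree_cyclotomic, Polynomial.natDegree_one] at h3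
        have := Nat.totient_pos.mpr (show 0 < q by omega)
        omega)
      rwa [natDegree_cyclotomic] at h1
    have hev : ∀ a : Φ, aeval (root q a) R = v a := by
      intro a
      rw [← hP a]
      have h1 := Polynomial.modByMonic_add_div P (cyclotomic q ℤ)
      have h2 : aeval (root q a) P = aeval (root q a) R +
          aeval (root q a) (cyclotomic q ℤ) * aeval (root q a) (P /ₘ cyclotomic q ℤ) := by
        conv_lhs => rw [← h1]
        rw [map_add, map_mul]
      have h3 : aeval (root q a) (cyclotomic q ℤ) = 0 := by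
        have h4 : (cyclotomic q ℂ).IsRoot (root q a) :=
          (root_prim q a (by omega) (h.cop a a.2)).isRoot_cyclotomic (by omega)
        rw [Polynomial.IsRoot, ← map_cyclotomic_int, Polynomial.eval_map] at h4
        rw [Polynomial.aeval_def]
        exact h4
      rw [h2, h3, zero_mul, add_zero]
    have hsum : v = ∑ k : Fin q.totient, (R.coeff k) • (powBasis q hq Φ h k) := by
      ext a
      rw [← hev a, Polynomial.aeval_eq_sum_range' hRdeg, Finset.sum_apply, Finset.sum_range]
      apply Finset.sum_congr rfl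
      intro k _
      rw [Pi.smul_apply, powBasis_apply]
      rfl
    rw [hsum]
    apply Submodule.sum_mem
    intro k _
    exact Submodule.smul_mem _ _ (Submodule.subset_span ⟨k, rfl⟩)
  · rw [Submodule.span_le]
    rintro _ ⟨k, rfl⟩
    change powBasis q hq Φ h k ∈ cycLattice q Φ
    rw [mem_cycLattice]
    refine ⟨Polynomial.X ^ (k : ℕ), fun a => ?_⟩
    rw [powBasis_apply]
    simp [powVec]

theorem cycLattice_discrete (q : ℕ) (hq : 2 < q) (Φ : Finset ℕ) (h : HalfSystem q Φ) :
    ∃ ε > 0, ∀ v ∈ cycLattice q Φ, ‖v‖ < ε → v = 0 := by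
  have h1 : DiscreteTopology (Submodule.span ℤ (Set.range (powBasis q hq Φ h))) := inferInstance
  have h2 : IsOpen ({0} : Set (Submodule.span ℤ (Set.range (powBasis q hq Φ h)))) :=
    isOpen_discrete _
  rw [Metric.isOpen_singleton_iff] at h2
  obtain ⟨ε, hε, h3⟩ := h2
  refine ⟨ε, hε, ?_⟩
  intro v hv hlt
  have hv' : v ∈ Submodule.span ℤ (Set.range (powBasis q hq Φ h)) := by
    rw [← cycLattice_eq q hq Φ h]
    exact hv
  have h4 := h3 ⟨v, hv'⟩ (by
    rw [Subtype.dist_eq]
    simpa using hlt)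
  exact congrArg Subtype.val h4

theorem cycLattice_span (q : ℕ) (hq : 2 < q) (Φ : Finset ℕ) (h : HalfSystem q Φ) :
    Submodule.span ℝ (cycLattice q Φ : Set (Φ → ℂ)) = ⊤ := by
  have h1 := ZSpan.span_top (powBasis q hq Φ h)
  rw [← cycLattice_eq q hq Φ h] at h1
  exact h1

theorem cycLattice_mul (q : ℕ) (Φ : Finset ℕ) (j : ℕ) (v : Φ → ℂ) (hv : v ∈ cycLattice q Φ) :
    (fun a : Φ => root q a ^ j * v a) ∈ cycLattice q Φ := by
  rw [mem_cycLattice] at hv ⊢
  obtain ⟨P, hP⟩ := hv
  refine ⟨Polynomial.X ^ j * P, fun a => ?_⟩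
  rw [map_mul, map_pow, Polynomial.aeval_X, hP a]

end Pool.Agent.TorusIdx
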