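import Pool.Agent.TorusIdx.HalfSystem

/-!
# Polarisations of tori of cyclotomic CM type
-/

namespace Pool.Agent.TorusIdx

theorem sum_cos (q : ℕ) (hq : 0 < q) (n : ℤ) :
    ∑ m ∈ Finset.range q, Real.cos (2 * Real.pi * ((n : ℝ) * m / q)) =
      if (q : ℤ) ∣ n then (q : ℝ) else 0 := by
  set z : ℂ := Complex.exp (2 * Real.pi * Complex.I * ((n : ℂ) / (q : ℂ))) with hz
  have hq0 : (q : ℂ) ≠ 0 := by exact_mod_cast hq.ne'
  have h1 : ∀ m : ℕ, (z ^ m).re = Real.cos (2 * Real.pi * ((n : ℝ) * m / q)) := by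
    intro m
    rw [hz, ← Complex.exp_nat_mul]
    have h2 : (m : ℂ) * (2 * Real.pi * Complex.I * ((n : ℂ) / (q : ℂ))) =
        ((2 * Real.pi * ((n : ℝ) * m / q) : ℝ) : ℂ) * Complex.I := by
      push_cast
      ring
    rw [h2, Complex.exp_ofReal_mul_I_re]
  have h3 : ∑ m ∈ Finset.range q, Real.cos (2 * Real.pi * ((n : ℝ) * m / q)) =
      (∑ m ∈ Finset.range q, z ^ m).re := by
    rw [Complex.re_sum]
    exact Finset.sum_congr rfl (fun m _ => (h1 m).symm)
  rw [h3]
  have hzq : z ^ q = 1 := by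
    rw [hz, ← Complex.exp_nat_mul]
    have h2 : (q : ℂ) * (2 * Real.pi * Complex.I * ((n : ℂ) / (q : ℂ))) =
        (n : ℂ) * (2 * Real.pi * Complex.I) := by
      field_simp
    rw [h2]
    exact Complex.exp_int_mul_two_pi_mul_I n
  split_ifs with hdvd
  · obtain ⟨c, hc⟩ := hdvd
    have hz1 : z = 1 := by
      rw [hz]
      have h2 : 2 * (Real.pi : ℂ) * Complex.I * ((n : ℂ) / (q : ℂ)) =
          (c : ℂ) * (2 * Real.pi * Complex.I) := by
        rw [hc]
        push_cast
        field_simp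
      rw [h2]
      exact Complex.exp_int_mul_two_pi_mul_I c
    rw [hz1]
    simp
  · have hz1 : z ≠ 1 := by
      intro h2
      rw [hz, Complex.exp_eq_one_iff] at h2
      obtain ⟨c, hc⟩ := h2
      apply hdvd
      refine ⟨c, ?_⟩
      have hpi : (2 * (Real.pi : ℂ) * Complex.I) ≠ 0 := Complex.two_pi_I_ne_zero
      have h4 : (2 * (Real.pi : ℂ) * Complex.I) * ((n : ℂ) / (q : ℂ)) =
          (2 * (Real.pi : ℂ) * Complex.I) * c := by
        rw [hc]
        ring
      have h5 := mul_left_cancel₀ hpi h4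
      rw [div_eq_iff hq0] at h5
      have h6 : (n : ℂ) = ((q * c : ℤ) : ℂ) := by
        rw [h5]
        push_cast
        ring
      exact_mod_cast h6
    have h4 := mul_geom_sum z q
    rw [hzq, sub_self] at h4
    rcases mul_eq_zero.mp h4 with h5 | h5
    · exact absurd (sub_eq_zero.mp h5) hz1
    · rw [h5]
      simp

theorem sum_units_cos (p k : ℕ) (hp : p.Prime) (hk : 0 < k) (n : ℤ) :
    ∃ m : ℤ, ∑ a ∈ (Finset.range (p ^ k)).filter (fun a => a.Coprime (p ^ k)),
      Real.cos (2 * Real.pi * ((n : ℝ) * a / (p ^ k : ℕ))) = m := by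
  set q := p ^ k with hq
  have hqpos : 0 < q := pow_pos hp.pos k
  have hpk : q = p ^ (k - 1) * p := by
    rw [hq, ← pow_succ]
    congr 1
    omega
  have h1 := Finset.sum_filter_add_sum_filter_not (Finset.range q) (fun a => a.Coprime q)
    (fun a => Real.cos (2 * Real.pi * ((n : ℝ) * a / (q : ℕ))))
  have h2 : (Finset.range q).filter (fun a => ¬ a.Coprime q) =
      (Finset.range (p ^ (k - 1))).image (fun b => b * p) := by
    ext a
    simp only [Finset.mem_filter, Finset.mem_range, Finset.mem_image]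
    constructor
    · rintro ⟨ha, hc⟩
      have h3 : p ∣ a := by
        by_contra h4
        apply hc
        rw [hq]
        exact Nat.Coprime.pow_right k (Nat.Coprime.symm ((Nat.Prime.coprime_iff_not_dvd hp).mpr h4))
      obtain ⟨b, rfl⟩ := h3
      refine ⟨b, ?_, mul_comm _ _⟩
      rw [hpk, mul_comm] at ha
      exact lt_of_mul_lt_mul_right ha (Nat.zero_le _)
    · rintro ⟨b, hb, rfl⟩
      refine ⟨?_, ?_⟩
      · rw [hpk]
        exact Nat.mul_lt_mul_of_pos_right hb hp.pos
      · intro hc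
        have h3 : p ∣ b * p := dvd_mul_left _ _
        have h4 : p ∣ q := by
          rw [hq]
          exact dvd_pow_self p hk.ne'
        have h5 := Nat.dvd_gcd h3 h4
        rw [hc] at h5
        exact hp.one_lt.ne' (Nat.dvd_one.mp h5)
  have h3 : ∑ a ∈ (Finset.range q).filter (fun a => ¬ a.Coprime q),
      Real.cos (2 * Real.pi * ((n : ℝ) * a / (q : ℕ))) =
      ∑ b ∈ Finset.range (p ^ (k - 1)),
        Real.cos (2 * Real.pi * ((n : ℝ) * b / (p ^ (k - 1) : ℕ))) := by
    rw [h2, Finset.sum_image]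
    · apply Finset.sum_congr rfl
      intro b _
      congr 2
      rw [hpk]
      have hp0 : (p : ℝ) ≠ 0 := by exact_mod_cast hp.ne_zero
      have hp1 : ((p ^ (k - 1) : ℕ) : ℝ) ≠ 0 := by
        exact_mod_cast (pow_pos hp.pos (k - 1)).ne'
      push_cast at hp1 ⊢
      field_simp
    · intro x _ y _ hxy
      exact Nat.eq_of_mul_eq_mul_right hp.pos hxy
  rw [h3, sum_cos _ (pow_pos hp.pos _), sum_cos _ hqpos] at h1
  refine ⟨(if (q : ℤ) ∣ n then (q : ℤ) else 0) -
    (if ((p ^ (k - 1) : ℕ) : ℤ) ∣ n then ((p ^ (k - 1) : ℕ) : ℤ) else 0), ?_⟩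
  have h4 : ∑ a ∈ (Finset.range q).filter (fun a => a.Coprime q),
      Real.cos (2 * Real.pi * ((n : ℝ) * a / (q : ℕ))) =
      (if (q : ℤ) ∣ n then (q : ℝ) else 0) -
      (if ((p ^ (k - 1) : ℕ) : ℤ) ∣ n then ((p ^ (k - 1) : ℕ) : ℝ) else 0) := by
    linarith
  rw [h4]
  push_cast
  congr 1

theorem cos_reflect (q a : ℕ) (hq : 0 < q) (ha : a ≤ q) (n : ℤ) :
    Real.cos (2 * Real.pi * ((n : ℝ) * ((q - a : ℕ) : ℝ) / q)) =
      Real.cos (2 * Real.pi * ((n : ℝ) * a / q)) := by
  have hq0 : (q : ℝ) ≠ 0 := by exact_mod_cast hq.ne'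
  rw [Nat.cast_sub ha]
  have h1 : 2 * Real.pi * ((n : ℝ) * ((q : ℝ) - a) / q) =
      (n : ℝ) * (2 * Real.pi) - 2 * Real.pi * ((n : ℝ) * a / q) := by
    field_simp
  rw [h1, Real.cos_int_mul_two_pi_sub]

theorem two_mul_sin_mul_sin (x y : ℝ) :
    2 * (Real.sin x * Real.sin y) = Real.cos (x - y) - Real.cos (x + y) := by
  rw [Real.cos_sub, Real.cos_add]
  ring

/-- The weights of a Riemann form on the torus of a half system modulo a prime power. -/
theorem exists_weights (p k : ℕ) (hp : p.Prime) (hk : 0 < k) (hq : 2 < p ^ k) (Φ : Finset ℕ)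
    (h : HalfSystem (p ^ k) Φ) :
    ∃ w : ℕ → ℝ, (∀ a ∈ Φ, 0 < w a) ∧ ∀ n : ℤ, ∃ m : ℤ,
      ∑ a ∈ Φ, w a * Real.sin (2 * Real.pi * ((n : ℝ) * a / (p ^ k : ℕ))) = m := by
  set q := p ^ k with hqdef
  have hq0 : (q : ℝ) ≠ 0 := by exact_mod_cast (by omega : q ≠ 0)
  let S : ℤ → ℕ → ℝ := fun n a => Real.sin (2 * Real.pi * ((n : ℝ) * a / q))
  let C : ℤ → ℕ → ℝ := fun n a => Real.cos (2 * Real.pi * ((n : ℝ) * a / q))
  have hSS : ∀ (m n : ℤ) (a : ℕ), 2 * (S m a * S n a) = C (m - n) a - C (m + n) a := by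
    intro m n a
    simp only [S, C]
    rw [two_mul_sin_mul_sin]
    congr 2
    · push_cast
      ring
    · push_cast
      ring
  have hSymm : ∀ (a b : ℕ), S (a : ℤ) b = S (b : ℤ) a := by
    intro a b
    simp only [S]
    congr 2
    push_cast
    ring
  let s : ℕ → ℝ := fun m => 2 * ∑ b ∈ Φ, S (m : ℤ) b
  let c : ℕ → ℤ := fun m => round (s m)
  let δ : ℕ → ℝ := fun a => ∑ m ∈ Finset.range q, (c m : ℝ) * S (m : ℤ) a
  have hexact : ∀ a ∈ Φ, ∑ m ∈ Finset.range q, s m * S (m : ℤ) a = q := by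
    intro a ha
    have h1 : ∀ m ∈ Finset.range q, s m * S (m : ℤ) a =
        ∑ b ∈ Φ, (C ((b : ℤ) - a) m - C ((b : ℤ) + a) m) := by
      intro m _
      simp only [s]
      rw [mul_assoc, Finset.sum_mul, Finset.mul_sum]
      apply Finset.sum_congr rfl
      intro b _
      rw [hSymm m b, hSymm m a, hSS]
    rw [Finset.sum_congr rfl h1, Finset.sum_comm]
    have h2 : ∀ b ∈ Φ, ∑ m ∈ Finset.range q, (C ((b : ℤ) - a) m - C ((b : ℤ) + a) m) =
        if b = a then (q : ℝ) else 0 := by
      intro b hb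
      rw [Finset.sum_sub_distrib]
      simp only [C]
      rw [sum_cos q (by omega), sum_cos q (by omega)]
      have hblt := h.lt b hb
      have halt := h.lt a ha
      have hb0 := h.pos hq b hb
      have ha0 := h.pos hq a ha
      have h3 : ¬ ((q : ℤ) ∣ (b : ℤ) + a) := by
        intro h4
        have h5 : q ∣ b + a := by exact_mod_cast h4
        obtain ⟨t, ht⟩ := h5
        have h6 : t = 1 := by
          rcases t with _ | _ | t
          · omega
          · rfl
          · exfalso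
            have : q * (t + 1 + 1) = q * t + 2 * q := by ring
            have h7 : 0 ≤ q * t := Nat.zero_le _
            omega
        subst h6
        have h8 : b = q - a := by omega
        have h9 := (h.half a halt (h.cop a ha)).mp ha
        rw [← h8] at h9
        exact h9 hb
      rw [if_neg h3, sub_zero]
      by_cases hba : b = a
      · rw [if_pos hba, if_pos]
        rw [hba, sub_self]
        exact dvd_zero _
      · rw [if_neg hba, if_neg]
        intro h4
        obtain ⟨t, ht⟩ := h4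
        have h5 : t = 0 := by
          by_contra h6
          rcases lt_or_gt_of_ne h6 with h7 | h7
          · have : (q : ℤ) * t ≤ (q : ℤ) * (-1) := by
              apply mul_le_mul_of_nonneg_left _ (by omega)
              omega
            omega
          · have : (q : ℤ) * 1 ≤ (q : ℤ) * t := by
              apply mul_le_mul_of_nonneg_left _ (by omega)
              omega
            omega
        rw [h5, mul_zero] at ht
        omega
    rw [Finset.sum_congr rfl h2, Finset.sum_ite_eq' Φ a, if_pos ha]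
  have hpos : ∀ a ∈ Φ, 0 < δ a := by
    intro a ha
    have h1 : δ a = q + ∑ m ∈ Finset.range q, ((c m : ℝ) - s m) * S (m : ℤ) a := by
      rw [← hexact a ha, ← Finset.sum_add_distrib]
      simp only [δ]
      apply Finset.sum_congr rfl
      intro m _
      ring
    have h2 : |∑ m ∈ Finset.range q, ((c m : ℝ) - s m) * S (m : ℤ) a| ≤ q * (1 / 2) := by
      calc |∑ m ∈ Finset.range q, ((c m : ℝ) - s m) * S (m : ℤ) a|
          ≤ ∑ m ∈ Finset.range q, |((c m : ℝ) - s m) * S (m : ℤ) a| :=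
            Finset.abs_sum_le_sum_abs _ _
        _ ≤ ∑ _m ∈ Finset.range q, (1 / 2 : ℝ) := by
            apply Finset.sum_le_sum
            intro m _
            rw [abs_mul]
            have h3 : |(c m : ℝ) - s m| ≤ 1 / 2 := by
              rw [abs_sub_comm]
              exact abs_sub_round (s m)
            have h4 : |S (m : ℤ) a| ≤ 1 := Real.abs_sin_le_one _
            calc |(c m : ℝ) - s m| * |S (m : ℤ) a| ≤ (1 / 2) * 1 :=
                  mul_le_mul h3 h4 (abs_nonneg _) (by norm_num)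
              _ = 1 / 2 := by norm_num
        _ = q * (1 / 2) := by
            rw [Finset.sum_const, Finset.card_range, nsmul_eq_mul]
    have h5 : (0 : ℝ) < q := by exact_mod_cast (by omega : 0 < q)
    have h6 := (abs_le.mp h2).1
    rw [h1]
    linarith
  refine ⟨fun a => 4 * δ a, fun a ha => by have := hpos a ha; linarith, ?_⟩
  intro n
  have h1 : ∀ N : ℤ, ∃ M : ℤ, ∑ a ∈ Φ, 2 * C N a = M := by
    intro N
    obtain ⟨M, hM⟩ := sum_units_cos p k hp hk N
    refine ⟨M, ?_⟩
    rw [← hM, h.sum_units hq (fun a => Real.cos (2 * Real.pi * ((N : ℝ) * a / (p ^ k : ℕ))))]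
    apply Finset.sum_congr rfl
    intro a ha
    have h2 := cos_reflect q a (by omega) (h.lt a ha).le N
    simp only [C]
    rw [← hqdef, h2]
    ring
  choose M hM using h1
  refine ⟨∑ m ∈ Finset.range q, c m * (M ((m : ℤ) - n) - M ((m : ℤ) + n)), ?_⟩
  have h2 : ∀ a ∈ Φ, 4 * δ a * Real.sin (2 * Real.pi * ((n : ℝ) * a / (q : ℕ))) =
      ∑ m ∈ Finset.range q, (c m : ℝ) * (2 * C ((m : ℤ) - n) a - 2 * C ((m : ℤ) + n) a) := by
    intro a _
    change 4 * δ a * S n a = _
    simp only [δ]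
    rw [mul_assoc, Finset.sum_mul, Finset.mul_sum]
    apply Finset.sum_congr rfl
    intro m _
    have := hSS (m : ℤ) n a
    linear_combination (2 * (c m : ℝ)) * this
  change ∑ a ∈ Φ, 4 * δ a * Real.sin (2 * Real.pi * ((n : ℝ) * a / (q : ℕ))) = _
  rw [Finset.sum_congr rfl h2, Finset.sum_comm]
  push_cast
  apply Finset.sum_congr rfl
  intro m _
  rw [← Finset.mul_sum, Finset.sum_sub_distrib, hM, hM]

end Pool.Agent.TorusIdx
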