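import Pool.Agent.TorusIdx.Cyclic
import Pool.Agent.TorusIdx.Lattice
import Pool.Agent.TorusIdx.Polar

/-!
# Torus quotients of cyclotomic CM type
-/

namespace Pool.Agent.TorusIdx

open Module

/-- Diagonal linear automorphisms. -/
noncomputable def diagHom (ι : Type) : (ι → ℂˣ) →* ((ι → ℂ) ≃ₗ[ℂ] (ι → ℂ)) where
  toFun u :=
    { toFun := fun v i => (u i : ℂ) * v i
      invFun := fun v i => ((u i)⁻¹ : ℂˣ) * v i
      map_add' := by
        intro v w
        ext i
        simp [mul_add]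
      map_smul' := by
        intro c v
        ext i
        simp [mul_left_comm]
      left_inv := by
        intro v
        ext i
        simp
      right_inv := by
        intro v
        ext i
        simp }
  map_one' := by
    ext v i
    simp
  map_mul' := by
    intro u w
    ext v i
    simp [mul_assoc]

theorem diagHom_apply (ι : Type) (u : ι → ℂˣ) (v : ι → ℂ) (i : ι) :
    diagHom ι u v i = (u i : ℂ) * v i := rfl

theorem diagHom_zpow_apply (ι : Type) (u : ι → ℂˣ) (j : ℤ) (v : ι → ℂ) (i : ι) :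
    ((diagHom ι u) ^ j) v i = ((u i ^ j : ℂˣ) : ℂ) * v i := by
  rw [← map_zpow, diagHom_apply, Pi.pow_apply]

theorem root_ne_zero (q a : ℕ) : root q a ≠ 0 := Complex.exp_ne_zero _

/-- The eigenvalues of the generator. -/
noncomputable def eig (q : ℕ) (Φ : Finset ℕ) (m : ℕ) : (Φ ⊕ Fin m) → ℂˣ :=
  Sum.elim (fun a => Units.mk0 (root q a) (root_ne_zero q a)) (fun _ => 1)

/-- The lattice: cyclotomic integers times Gaussian integers. -/
noncomputable def exLattice (q : ℕ) (Φ : Finset ℕ) (m : ℕ) : AddSubgroup ((Φ ⊕ Fin m) → ℂ) where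
  carrier := {v | (fun a : Φ => v (Sum.inl a)) ∈ cycLattice q Φ ∧
    ∀ i : Fin m, ∃ x y : ℤ, v (Sum.inr i) = x + y * Complex.I}
  zero_mem' := by
    refine ⟨(cycLattice q Φ).zero_mem, fun i => ⟨0, 0, by simp⟩⟩
  add_mem' := by
    rintro v w ⟨hv, hv'⟩ ⟨hw, hw'⟩
    refine ⟨(cycLattice q Φ).add_mem hv hw, fun i => ?_⟩
    obtain ⟨x, y, hxy⟩ := hv' i
    obtain ⟨x', y', hxy'⟩ := hw' i
    refine ⟨x + x', y + y', ?_⟩
    rw [Pi.add_apply, hxy, hxy']
    push_cast
    ring
  neg_mem' := by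
    rintro v ⟨hv, hv'⟩
    refine ⟨(cycLattice q Φ).neg_mem hv, fun i => ?_⟩
    obtain ⟨x, y, hxy⟩ := hv' i
    refine ⟨-x, -y, ?_⟩
    rw [Pi.neg_apply, hxy]
    push_cast
    ring

theorem mem_exLattice (q : ℕ) (Φ : Finset ℕ) (m : ℕ) (v : (Φ ⊕ Fin m) → ℂ) :
    v ∈ exLattice q Φ m ↔ (fun a : Φ => v (Sum.inl a)) ∈ cycLattice q Φ ∧
      ∀ i : Fin m, ∃ x y : ℤ, v (Sum.inr i) = x + y * Complex.I := Iff.rfl

/-- The translation vector. -/
noncomputable def exVec (q : ℕ) (Φ : Finset ℕ) (m : ℕ) : (Φ ⊕ Fin m) → ℂ :=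
  Sum.elim (fun _ => 0) (fun _ => 1 / (q : ℂ))

/-- The data of the example. -/
noncomputable def exData (q : ℕ) (hq : 0 < q) (Φ : Finset ℕ) (m : ℕ) :
    CycData ((Φ ⊕ Fin m) → ℂ) where
  α := diagHom _ (eig q Φ m)
  Λ := exLattice q Φ m
  t := exVec q Φ m
  q := q
  qpos := hq
  αq := by
    rw [← map_pow]
    have : eig q Φ m ^ q = 1 := by
      ext i
      rcases i with a | i
      · simp [eig, root_pow_q q a hq.ne']
      · simp [eig]
    rw [this, map_one]
  αΛ := by
    rintro v ⟨hv, hv'⟩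
    refine ⟨?_, fun i => ?_⟩
    · have h1 := cycLattice_mul q Φ 1 _ hv
      have h2 : (fun a : Φ => diagHom _ (eig q Φ m) v (Sum.inl a)) =
          (fun a : Φ => root q a ^ 1 * v (Sum.inl a)) := by
        ext a
        rw [diagHom_apply, pow_one]
        rfl
      rw [h2]
      exact h1
    · obtain ⟨x, y, hxy⟩ := hv' i
      refine ⟨x, y, ?_⟩
      rw [diagHom_apply, ← hxy]
      simp [eig]
  αt := by
    ext i
    rw [diagHom_apply]
    rcases i with a | i
    · simp [exVec]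
    · simp [exVec, eig]
  tΛ := by
    refine ⟨?_, fun i => ⟨1, 0, ?_⟩⟩
    · have : (fun a : Φ => (q • exVec q Φ m) (Sum.inl a)) = 0 := by
        ext a
        simp [exVec]
      rw [this]
      exact (cycLattice q Φ).zero_mem
    · have h1 : (q : ℂ) ≠ 0 := by exact_mod_cast hq.ne'
      simp [exVec, h1]

theorem exLattice_discrete (q : ℕ) (hq : 2 < q) (Φ : Finset ℕ) (h : HalfSystem q Φ) (m : ℕ) :
    DiscreteTopology (exLattice q Φ m) := by
  apply discreteTopology_of_isOpen_singleton_zero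
  rw [Metric.isOpen_singleton_iff]
  obtain ⟨ε, hε, h1⟩ := cycLattice_discrete q hq Φ h
  refine ⟨min ε 1, lt_min hε one_pos, ?_⟩
  rintro ⟨v, hv⟩ hlt
  rw [Subtype.dist_eq] at hlt
  simp only [ZeroMemClass.coe_zero, dist_zero_right] at hlt
  have hlt1 : ‖v‖ < ε := lt_of_lt_of_le hlt (min_le_left _ _)
  have hlt2 : ‖v‖ < 1 := lt_of_lt_of_le hlt (min_le_right _ _)
  apply Subtype.ext
  change v = 0
  obtain ⟨hv1, hv2⟩ := hv
  have h2 : ‖(fun a : Φ => v (Sum.inl a))‖ < ε := by
    refine lt_of_le_of_lt ?_ hlt1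
    rw [pi_norm_le_iff_of_nonneg (norm_nonneg _)]
    intro a
    exact norm_le_pi_norm v (Sum.inl a)
  have h3 := h1 _ hv1 h2
  ext i
  rcases i with a | i
  · exact congrFun h3 a
  · obtain ⟨x, y, hxy⟩ := hv2 i
    have h4 : ‖v (Sum.inr i)‖ < 1 := lt_of_le_of_lt (norm_le_pi_norm v (Sum.inr i)) hlt2
    rw [hxy] at h4 ⊢
    have h5 : |(x : ℝ)| < 1 := by
      refine lt_of_le_of_lt ?_ h4
      have := Complex.abs_re_le_norm ((x : ℂ) + y * Complex.I)
      simpa using this
    have h6 : |(y : ℝ)| < 1 := by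
      refine lt_of_le_of_lt ?_ h4
      have := Complex.abs_im_le_norm ((x : ℂ) + y * Complex.I)
      simpa using this
    have h7 : x = 0 := by
      have : |x| < 1 := by exact_mod_cast h5
      exact Int.abs_lt_one_iff.mp this
    have h8 : y = 0 := by
      have : |y| < 1 := by exact_mod_cast h6
      exact Int.abs_lt_one_iff.mp this
    rw [h7, h8]
    simp

theorem exLattice_span (q : ℕ) (hq : 2 < q) (Φ : Finset ℕ) (h : HalfSystem q Φ) (m : ℕ) :
    Submodule.span ℝ (exLattice q Φ m : Set ((Φ ⊕ Fin m) → ℂ)) = ⊤ := by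
  rw [eq_top_iff]
  intro v _
  let L1 : (Φ → ℂ) →ₗ[ℝ] ((Φ ⊕ Fin m) → ℂ) :=
    { toFun := fun w => Sum.elim w (fun _ => 0)
      map_add' := by
        intro w w'
        ext i
        rcases i with a | i <;> simp
      map_smul' := by
        intro c w
        ext i
        rcases i with a | i <;> simp }
  have h1 : ∀ w : Φ → ℂ, L1 w ∈ Submodule.span ℝ (exLattice q Φ m : Set ((Φ ⊕ Fin m) → ℂ)) := by
    intro w
    have h2 : w ∈ Submodule.span ℝ (cycLattice q Φ : Set (Φ → ℂ)) := by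
      rw [cycLattice_span q hq Φ h]
      exact Submodule.mem_top
    have h3 : L1 w ∈ (Submodule.span ℝ (cycLattice q Φ : Set (Φ → ℂ))).map L1 :=
      Submodule.mem_map_of_mem h2
    rw [Submodule.map_span] at h3
    refine Submodule.span_mono ?_ h3
    rintro _ ⟨u, hu, rfl⟩
    refine ⟨hu, fun i => ⟨0, 0, ?_⟩⟩
    simp [L1]
  have h4 : ∀ i : Fin m, ∀ c : ℂ, Pi.single (Sum.inr i) c ∈
      Submodule.span ℝ (exLattice q Φ m : Set ((Φ ⊕ Fin m) → ℂ)) := by
    intro i c
    have h5 : ∀ x y : ℤ, (Pi.single (Sum.inr i) ((x : ℂ) + y * Complex.I) :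
        (Φ ⊕ Fin m) → ℂ) ∈ exLattice q Φ m := by
      intro x y
      refine ⟨?_, fun i' => ?_⟩
      · have : (fun a : Φ => (Pi.single (Sum.inr i) ((x : ℂ) + y * Complex.I) :
            (Φ ⊕ Fin m) → ℂ) (Sum.inl a)) = 0 := by
          ext a
          simp
        rw [this]
        exact (cycLattice q Φ).zero_mem
      · by_cases hii : i' = i
        · subst hii
          exact ⟨x, y, by simp⟩
        · refine ⟨0, 0, ?_⟩
          have : (Sum.inr i' : Φ ⊕ Fin m) ≠ Sum.inr i := fun h => hii (Sum.inr_injective h)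
          simp [this]
    have h6 : (Pi.single (Sum.inr i) c : (Φ ⊕ Fin m) → ℂ) =
        c.re • (Pi.single (Sum.inr i) (((1 : ℤ) : ℂ) + ((0 : ℤ) : ℂ) * Complex.I) :
          (Φ ⊕ Fin m) → ℂ) +
        c.im • (Pi.single (Sum.inr i) (((0 : ℤ) : ℂ) + ((1 : ℤ) : ℂ) * Complex.I) :
          (Φ ⊕ Fin m) → ℂ) := by
      rw [← Pi.single_smul, ← Pi.single_smul, ← Pi.single_add]
      congr 1
      apply Complex.ext <;> simp
    rw [h6]
    exact Submodule.add_mem _ (Submodule.smul_mem _ _ (Submodule.subset_span (h5 1 0)))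
      (Submodule.smul_mem _ _ (Submodule.subset_span (h5 0 1)))
  have h7 : v = L1 (fun a => v (Sum.inl a)) + ∑ i : Fin m, Pi.single (Sum.inr i)
      (v (Sum.inr i)) := by
    ext j
    rcases j with a | j
    · simp [L1, Finset.sum_apply]
    · rw [Pi.add_apply, Finset.sum_apply, Finset.sum_eq_single j]
      · simp [L1]
      · intro b _ hb
        have : (Sum.inr j : Φ ⊕ Fin m) ≠ Sum.inr b := fun h => hb (Sum.inr_injective h).symm
        simp [this]
      · intro h8
        exact absurd (Finset.mem_univ j) h8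
  rw [h7]
  exact Submodule.add_mem _ (h1 _) (Submodule.sum_mem _ (fun i _ => h4 i _))

end Pool.Agent.TorusIdx
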