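import Pool.Agent.TorusIdx.Example

/-!
# Properties of the torus quotients of cyclotomic CM type
-/

namespace Pool.Agent.TorusIdx

open Module Polynomial

theorem halfSystem_nonempty (q : ℕ) (hq : 2 < q) (Φ : Finset ℕ) (h : HalfSystem q Φ) :
    Φ.Nonempty := by
  rw [← Finset.card_pos]
  have h1 := h.card hq
  have h2 := Nat.totient_pos.mpr (show 0 < q by omega)
  omega

theorem exData_order (q : ℕ) (hq : 2 < q) (Φ : Finset ℕ) (h : HalfSystem q Φ) (m : ℕ) (j : ℤ)
    (hj : (exData q (by omega) Φ m).α ^ j = 1) : (q : ℤ) ∣ j := by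
  obtain ⟨a, ha⟩ := halfSystem_nonempty q hq Φ h
  have h1 : ((exData q (by omega) Φ m).α ^ j) (fun _ => 1) (Sum.inl ⟨a, ha⟩) = 1 := by
    rw [hj]
    rfl
  change ((diagHom _ (eig q Φ m)) ^ j) (fun _ => 1) (Sum.inl ⟨a, ha⟩) = 1 at h1
  rw [diagHom_zpow_apply, mul_one, Units.val_zpow_eq_zpow_val] at h1
  have h2 : (root q a) ^ j = 1 := h1
  exact ((root_prim q a (by omega) (h.cop a ha)).zpow_eq_one_iff_dvd j).mp h2

theorem diag_toLinearMap (ι : Type) [Fintype ι] [DecidableEq ι] (u : ι → ℂˣ) :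
    (diagHom ι u).toLinearMap = Matrix.toLin' (Matrix.diagonal (fun i => (u i : ℂ))) := by
  ext v i
  simp [diagHom_apply, Matrix.toLin'_apply, Matrix.mulVec_diagonal]

theorem det_diagHom (ι : Type) [Fintype ι] [DecidableEq ι] (u : ι → ℂˣ) :
    LinearMap.det (diagHom ι u).toLinearMap = ∏ i, (u i : ℂ) := by
  rw [diag_toLinearMap, LinearMap.det_toLin', Matrix.det_diagonal]

theorem roots_diagHom (ι : Type) [Fintype ι] [DecidableEq ι] (u : ι → ℂˣ) :
    (diagHom ι u).toLinearMap.charpoly.roots = Finset.univ.val.map (fun i => (u i : ℂ)) := by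
  rw [diag_toLinearMap, Matrix.charpoly_toLin', Matrix.charpoly_diagonal]
  have h1 : ∏ i, (X - C (u i : ℂ)) =
      ((Finset.univ.val.map (fun i => (u i : ℂ))).map (fun a => X - C a)).prod := by
    rw [Multiset.map_map]
    rfl
  rw [h1, Polynomial.roots_multiset_prod_X_sub_C]

theorem age_diagHom (ι : Type) [Fintype ι] [DecidableEq ι] (u : ι → ℂˣ) :
    age (diagHom ι u).toLinearMap =
      ∑ i, Int.fract (Complex.arg (u i : ℂ) / (2 * Real.pi)) := by
  rw [age, roots_diagHom, Multiset.map_map]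
  rfl

theorem fract_arg_exp (x : ℝ) :
    Int.fract (Complex.arg (Complex.exp ((2 * Real.pi * x : ℝ) * Complex.I)) / (2 * Real.pi)) =
      Int.fract x := by
  set z := Complex.exp ((2 * Real.pi * x : ℝ) * Complex.I) with hz
  have hz1 : ‖z‖ = 1 := Complex.norm_exp_ofReal_mul_I _
  have h1 : Complex.exp ((Complex.arg z : ℂ) * Complex.I) = z := by
    have h2 := Complex.norm_mul_exp_arg_mul_I z
    rw [hz1] at h2
    simpa using h2
  have h2 : Complex.exp ((Complex.arg z : ℂ) * Complex.I) =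
      Complex.exp ((2 * Real.pi * x : ℝ) * Complex.I) := by rw [h1]
  rw [Complex.exp_eq_exp_iff_exists_int] at h2
  obtain ⟨n, hn⟩ := h2
  have h3 : ((Complex.arg z : ℝ) : ℂ) = ((2 * Real.pi * x + n * (2 * Real.pi) : ℝ) : ℂ) := by
    have h4 : ((Complex.arg z : ℝ) : ℂ) * Complex.I =
        ((2 * Real.pi * x + n * (2 * Real.pi) : ℝ) : ℂ) * Complex.I := by
      rw [hn]
      push_cast
      ring
    exact mul_right_cancel₀ Complex.I_ne_zero h4
  have h4 : Complex.arg z = 2 * Real.pi * x + n * (2 * Real.pi) := by exact_mod_cast h3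
  have hpi : (2 * Real.pi) ≠ 0 := by positivity
  have h5 : Complex.arg z / (2 * Real.pi) = x + n := by
    rw [h4]
    field_simp
  rw [h5, Int.fract_add_intCast]

theorem root_pow_eq (q a c : ℕ) :
    root q a ^ c = Complex.exp ((2 * Real.pi * (((c * a : ℕ) : ℝ) / (q : ℝ)) : ℝ) * Complex.I) := by
  rw [root, ← Complex.exp_nat_mul]
  congr 1
  push_cast
  ring

/-- The age of a power of the generator. -/
theorem age_pow (q : ℕ) (hq : 0 < q) (Φ : Finset ℕ) (m : ℕ) (j : ℤ) :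
    age ((exData q hq Φ m).α ^ j).toLinearMap =
      (∑ a ∈ Φ, (((j % q).toNat * a) % q : ℕ) : ℝ) / q := by
  classical
  have hqz : (0 : ℤ) < q := by exact_mod_cast hq
  have h0 : (((j % q).toNat : ℕ) : ℤ) = j % q := Int.toNat_of_nonneg (Int.emod_nonneg _ hqz.ne')
  have h1 : (exData q hq Φ m).α ^ j = diagHom _ (eig q Φ m ^ j) := by
    change (diagHom _ (eig q Φ m)) ^ j = _
    rw [map_zpow]
  rw [h1, age_diagHom, Fintype.sum_sum_type]
  have h2 : ∀ i : Fin m, Int.fract (Complex.arg (((eig q Φ m ^ j) (Sum.inr i) : ℂˣ) : ℂ) /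
      (2 * Real.pi)) = 0 := by
    intro i
    have : (eig q Φ m ^ j) (Sum.inr i) = 1 := by
      rw [Pi.pow_apply]
      simp [eig]
    rw [this]
    simp
  have h3 : ∀ a : Φ, Int.fract (Complex.arg (((eig q Φ m ^ j) (Sum.inl a) : ℂˣ) : ℂ) /
      (2 * Real.pi)) = ((((j % q).toNat * (a : ℕ)) % q : ℕ) : ℝ) / q := by
    intro a
    have h4 : (((eig q Φ m ^ j) (Sum.inl a) : ℂˣ) : ℂ) = root q a ^ (j % q).toNat := by
      rw [Pi.pow_apply, Units.val_zpow_eq_zpow_val]
      change (root q a) ^ j = _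
      rw [← zpow_natCast (root q a), h0]
      conv_lhs => rw [← Int.emod_add_mul_ediv j q]
      rw [zpow_add₀ (root_ne_zero q a), zpow_mul, zpow_natCast, root_pow_q q a hq.ne', one_zpow,
        mul_one]
    rw [h4, root_pow_eq, fract_arg_exp, Int.fract_div_natCast_eq_div_natCast_mod]
  rw [Finset.sum_congr rfl (fun a _ => h3 a), Finset.sum_congr rfl (fun i _ => h2 i),
    Finset.sum_const_zero, add_zero, Finset.sum_div]
  rw [← Finset.sum_coe_sort Φ (fun a => ((((j % q).toNat * a) % q : ℕ) : ℝ) / q)]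

/-- The determinant of the generator. -/
theorem det_gen (q : ℕ) (hq : 0 < q) (Φ : Finset ℕ) (m : ℕ) :
    LinearMap.det (exData q hq Φ m).gen.linear.toLinearMap = root q (∑ a ∈ Φ, a) := by
  classical
  rw [CycData.gen_linear]
  change LinearMap.det (diagHom _ (eig q Φ m)).toLinearMap = _
  rw [det_diagHom, Fintype.prod_sum_type]
  have h1 : ∀ i : Fin m, ((eig q Φ m (Sum.inr i) : ℂˣ) : ℂ) = 1 := by
    intro i
    simp [eig]
  have h2 : ∀ a : Φ, ((eig q Φ m (Sum.inl a) : ℂˣ) : ℂ) = root q a := fun a => rfl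
  rw [Finset.prod_congr rfl (fun i _ => h1 i), Finset.prod_const_one, mul_one,
    Finset.prod_congr rfl (fun a _ => h2 a), Finset.prod_coe_sort Φ (fun a => root q a)]
  simp only [root]
  rw [← Complex.exp_sum]
  congr 1
  rw [← Finset.mul_sum, ← Finset.sum_div]
  push_cast
  rfl

/-- Elements with a fixed point. -/
theorem fixed_point (q : ℕ) (hq : 2 < q) (Φ : Finset ℕ) (m : ℕ)
    (γ : ((Φ ⊕ Fin m) → ℂ) ≃ᵃ[ℂ] ((Φ ⊕ Fin m) → ℂ))
    (hγ : γ ∈ (exData q (by omega) Φ m).group) (hne : γ ≠ 1) (z : (Φ ⊕ Fin m) → ℂ)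
    (hz : γ z = z) : m = 0 ∧ ∃ j : ℤ, γ.linear = (exData q (by omega) Φ m).α ^ j ∧
      ¬ (q : ℤ) ∣ j := by
  obtain ⟨j, hj, hj'⟩ := hγ
  have hqpos : 0 < q := by omega
  have hndvd : ¬ (q : ℤ) ∣ j := by
    rintro ⟨c, rfl⟩
    apply hne
    have h1 : γ.linear = 1 := by
      rw [hj, zpow_mul, zpow_natCast]
      have := (exData q hqpos Φ m).αq
      change (exData q hqpos Φ m).α ^ q = 1 at this
      rw [this, one_zpow]
    exact CycData.eq_one_of_linear γ h1 z hz
  refine ⟨?_, j, hj, hndvd⟩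
  by_contra hm
  apply hndvd
  have hm' : 0 < m := Nat.pos_of_ne_zero hm
  let i : Fin m := ⟨0, hm'⟩
  obtain ⟨x, y, hxy⟩ := hj'.2 i
  have h1 := CycData.apply_eq γ z
  rw [hz, hj] at h1
  have h2 := congrFun h1 (Sum.inr i)
  rw [Pi.add_apply] at h2
  have h3 : ((exData q hqpos Φ m).α ^ j) z (Sum.inr i) = z (Sum.inr i) := by
    change ((diagHom _ (eig q Φ m)) ^ j) z (Sum.inr i) = _
    rw [diagHom_zpow_apply]
    simp [eig]
  rw [h3] at h2
  have h4 : γ 0 (Sum.inr i) = 0 := by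
    have : z (Sum.inr i) + 0 = z (Sum.inr i) + γ 0 (Sum.inr i) := by rw [add_zero]; exact h2
    exact (add_left_cancel this).symm
  rw [Pi.sub_apply, h4] at hxy
  have h5 : (j • (exData q hqpos Φ m).t) (Sum.inr i) = (j : ℂ) / q := by
    change (j • exVec q Φ m) (Sum.inr i) = _
    simp [exVec, div_eq_mul_inv]
  rw [h5] at hxy
  have hq0 : (q : ℂ) ≠ 0 := by exact_mod_cast hqpos.ne'
  have hqr : (q : ℝ) ≠ 0 := by exact_mod_cast hqpos.ne'
  have h6 := congrArg Complex.re hxy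
  have h7 : ((0 : ℂ) - (j : ℂ) / q).re = -((j : ℝ) / q) := by
    have : (0 : ℂ) - (j : ℂ) / q = ((-((j : ℝ) / q) : ℝ) : ℂ) := by
      push_cast
      ring
    rw [this, Complex.ofReal_re]
  rw [h7] at h6
  have h8 : ((x : ℂ) + y * Complex.I).re = x := by simp
  rw [h8] at h6
  refine ⟨-x, ?_⟩
  have h9 : (j : ℝ) = q * (-x) := by
    field_simp at h6
    linarith
  exact_mod_cast h9

end Pool.Agent.TorusIdx
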