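import Pool.Agent.TorusIdx.Upper

/-!
# The canonical index of a torus quotient is the exponent of the determinants
-/

namespace Pool.Agent.TorusIdx

open Module

variable {V : Type} [NormedAddCommGroup V] [NormedSpace ℂ V]

theorem mem_translations (Γ : Subgroup (V ≃ᵃ[ℂ] V)) (v : V) :
    v ∈ translations Γ ↔ AffineEquiv.constVAdd ℂ V v ∈ Γ := Iff.rfl

theorem linear_mem_translations (Γ : Subgroup (V ≃ᵃ[ℂ] V)) (γ : V ≃ᵃ[ℂ] V) (hγ : γ ∈ Γ) (v : V)
    (hv : v ∈ translations Γ) : γ.linear v ∈ translations Γ := by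
  rw [mem_translations] at hv ⊢
  have h : AffineEquiv.constVAdd ℂ V (γ.linear v) = γ * AffineEquiv.constVAdd ℂ V v * γ⁻¹ := by
    ext x
    simp only [AffineEquiv.coe_mul, Function.comp_apply, AffineEquiv.constVAdd_apply]
    rw [AffineEquiv.map_vadd, AffineEquiv.inv_def, AffineEquiv.apply_symm_apply]
  rw [h]
  exact Γ.mul_mem (Γ.mul_mem hγ hv) (Γ.inv_mem hγ)

theorem IsTorusQuotient.discrete' {Γ : Subgroup (V ≃ᵃ[ℂ] V)} (h : IsTorusQuotient Γ) :
    DiscreteTopology (AddSubgroup.toIntSubmodule (translations Γ)) := h.discrete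

theorem IsTorusQuotient.isZLattice {Γ : Subgroup (V ≃ᵃ[ℂ] V)} (h : IsTorusQuotient Γ)
    [DiscreteTopology (AddSubgroup.toIntSubmodule (translations Γ))] :
    IsZLattice ℝ (AddSubgroup.toIntSubmodule (translations Γ)) := ⟨h.span⟩

theorem linear_pow (γ : V ≃ᵃ[ℂ] V) (n : ℕ) : (γ ^ n).linear = γ.linear ^ n :=
  map_pow AffineEquiv.linearHom γ n

theorem IsTorusQuotient.exists_pow {Γ : Subgroup (V ≃ᵃ[ℂ] V)} (h : IsTorusQuotient Γ)
    (γ : V ≃ᵃ[ℂ] V) (hγ : γ ∈ Γ) : ∃ M : ℕ, 0 < M ∧ γ.linear ^ M = 1 := by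
  have h1 : (Submonoid.powers γ.linear : Set (V ≃ₗ[ℂ] V)).Finite := by
    refine h.finite.subset ?_
    rintro _ ⟨n, rfl⟩
    exact ⟨γ ^ n, Γ.pow_mem hγ n, linear_pow γ n⟩
  rw [finite_powers] at h1
  obtain ⟨n, hn, hn1⟩ := isOfFinOrder_iff_pow_eq_one.mp h1
  exact ⟨n, hn, hn1⟩

theorem toLinearMap_pow (A : V ≃ₗ[ℂ] V) (n : ℕ) :
    (A ^ n).toLinearMap = A.toLinearMap ^ n := by
  induction n with
  | zero => rfl
  | succ n ih =>
    rw [pow_succ, pow_succ, ← ih]
    rfl

variable [FiniteDimensional ℂ V]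

/-- `m K ∼ 0` exactly when the determinants of the linear parts have order dividing `m`. -/
theorem canonicalPowerTrivial_iff {Γ : Subgroup (V ≃ᵃ[ℂ] V)} (h : IsTorusQuotient Γ) (m : ℕ) :
    CanonicalPowerTrivial Γ m ↔ ∀ γ ∈ Γ, (LinearMap.det γ.linear.toLinearMap) ^ m = 1 := by
  have hdisc := h.discrete'
  have hZ := h.isZLattice
  have : FiniteDimensional ℝ V := FiniteDimensional.complexToReal V
  constructor
  · rintro ⟨f, hf, hf0, hinv⟩ γ hγ
    have hper : ∀ z w, w ∈ AddSubgroup.toIntSubmodule (translations Γ) → f (z + w) = f z := by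
      intro z w hw
      have h1 := hinv (AffineEquiv.constVAdd ℂ V w) hw z
      have h2 : (AffineEquiv.constVAdd ℂ V w).linear = LinearEquiv.refl ℂ V := rfl
      rw [h2] at h1
      have h3 : (LinearEquiv.refl ℂ V).toLinearMap = LinearMap.id := rfl
      rw [h3, LinearMap.det_id, one_pow, mul_one] at h1
      rw [add_comm]
      exact h1
    have hcomp := IsZLattice.isCompact_range_of_periodic
      (AddSubgroup.toIntSubmodule (translations Γ)) f hf.continuous hper
    have hconst := hf.apply_eq_apply_of_bounded hcomp.isBounded (γ 0) 0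
    have h1 := hinv γ hγ 0
    rw [hconst] at h1
    have h2 : f 0 * ((LinearMap.det γ.linear.toLinearMap) ^ m - 1) = 0 := by
      linear_combination h1
    rcases mul_eq_zero.mp h2 with h3 | h3
    · exact absurd h3 (hf0 0)
    · exact sub_eq_zero.mp h3
  · intro hdet
    refine ⟨fun _ => 1, differentiable_const 1, fun _ => one_ne_zero, ?_⟩
    intro γ hγ z
    rw [hdet γ hγ, mul_one]

/-- The upper bound: `torusIndex d` is an index of every torus quotient of dimension `d ≥ 2`. -/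
theorem canonicalPowerTrivial_torusIndex {Γ : Subgroup (V ≃ᵃ[ℂ] V)} (h : IsTorusQuotient Γ)
    (hd : 2 ≤ finrank ℂ V) : CanonicalPowerTrivial Γ (torusIndex (finrank ℂ V)) := by
  rw [canonicalPowerTrivial_iff h]
  intro γ hγ
  have hdisc := h.discrete'
  have hZ := h.isZLattice
  obtain ⟨M, hM, hM1⟩ := h.exists_pow γ hγ
  refine det_pow_torusIndex hd (AddSubgroup.toIntSubmodule (translations Γ)) _ ?_ M hM ?_
  · intro v hv
    exact linear_mem_translations Γ γ hγ v hv
  · rw [← toLinearMap_pow, hM1]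
    rfl

end Pool.Agent.TorusIdx
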