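import Pool.Agent.TorusIdx.Example2
import Pool.Agent.TorusIdx.AgeBound
import Pool.Agent.TorusIdx.Quot

/-!
# The torus quotients which make the index optimal
-/

namespace Pool.Agent.TorusIdx

open Module Polynomial

theorem translations_ex (q : ℕ) (hq : 2 < q) (Φ : Finset ℕ) (h : HalfSystem q Φ) (m : ℕ) :
    translations (exData q (by omega) Φ m).group = exLattice q Φ m :=
  CycData.translations_group _ (fun j hj => exData_order q hq Φ h m j hj)

theorem isTorusQuotient_ex (q : ℕ) (hq : 2 < q) (Φ : Finset ℕ) (h : HalfSystem q Φ) (m : ℕ)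
    (hd : 2 ≤ Φ.card) : IsTorusQuotient (exData q (by omega) Φ m).group where
  discrete := by
    rw [translations_ex q hq Φ h m]
    exact exLattice_discrete q hq Φ h m
  span := by
    rw [translations_ex q hq Φ h m]
    exact exLattice_span q hq Φ h m
  finite := CycData.finite_linear _
  free := by
    rintro γ hγ hne ⟨z, hz⟩
    obtain ⟨hm, j, hj, hjq⟩ := fixed_point q hq Φ m γ hγ hne z hz
    subst hm
    have h1 : LinearMap.ker (γ.linear.toLinearMap - LinearMap.id) = ⊥ := by
      rw [LinearMap.ker_eq_bot']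
      intro v hv
      ext i
      rcases i with a | i
      · have h2 := congrFun hv (Sum.inl a)
        rw [LinearMap.sub_apply, Pi.sub_apply, hj] at h2
        have h3 : ((exData q (by omega) Φ 0).α ^ j) v (Sum.inl a) =
            (root q a) ^ j * v (Sum.inl a) := by
          change ((diagHom _ (eig q Φ 0)) ^ j) v (Sum.inl a) = _
          rw [diagHom_zpow_apply, Units.val_zpow_eq_zpow_val]
          rfl
        have h4 : (root q a) ^ j * v (Sum.inl a) - v (Sum.inl a) = 0 := by
          rw [← h3]
          exact h2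
        have h5 : ((root q a) ^ j - 1) * v (Sum.inl a) = 0 := by
          linear_combination h4
        rcases mul_eq_zero.mp h5 with h6 | h6
        · exfalso
          exact hjq (((root_prim q a (by omega) (h.cop a a.2)).zpow_eq_one_iff_dvd j).mp
            (sub_eq_zero.mp h6))
        · exact h6
      · exact i.elim0
    rw [h1, finrank_bot, Module.finrank_fintype_fun_eq_card, Fintype.card_sum, Fintype.card_coe]
    omega

theorem canonical_ex (q : ℕ) (hq : 2 < q) (Φ : Finset ℕ) (m : ℕ)
    (hage : m = 0 → ∀ c : ℕ, c < q → c ≠ 0 → q ≤ ∑ a ∈ Φ, (c * a) % q) :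
    HasCanonicalSingularities (exData q (by omega) Φ m).group := by
  rintro γ hγ hne ⟨z, hz⟩
  obtain ⟨hm, j, hj, hjq⟩ := fixed_point q hq Φ m γ hγ hne z hz
  have hqz : (0 : ℤ) < q := by exact_mod_cast (by omega : 0 < q)
  have h0 : (((j % q).toNat : ℕ) : ℤ) = j % q := Int.toNat_of_nonneg (Int.emod_nonneg _ hqz.ne')
  have h1 := Int.emod_lt_of_pos j hqz
  have h2 := Int.emod_nonneg j hqz.ne'
  have h3 : j % q ≠ 0 := fun h4 => hjq (Int.dvd_of_emod_eq_zero h4)
  have h4 := hage hm (j % q).toNat (by omega) (by omega)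
  rw [hj, age_pow q (by omega) Φ m j, le_div_iff₀ (by exact_mod_cast (by omega : 0 < q)), one_mul]
  exact_mod_cast h4

theorem im_mul_conj_monomial (q a i k : ℕ) :
    (root q a ^ i * (starRingEnd ℂ) (root q a ^ k)).im =
      Real.sin (2 * Real.pi * ((((i : ℤ) - (k : ℤ) : ℤ) : ℝ) * a / (q : ℕ))) := by
  rw [root_pow_eq, root_pow_eq, ← Complex.exp_conj, ← Complex.exp_add]
  have h1 : ((2 * Real.pi * (((i * a : ℕ) : ℝ) / (q : ℝ)) : ℝ) : ℂ) * Complex.I +
      (starRingEnd ℂ) (((2 * Real.pi * (((k * a : ℕ) : ℝ) / (q : ℝ)) : ℝ) : ℂ) * Complex.I) =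
      ((2 * Real.pi * ((((i : ℤ) - (k : ℤ) : ℤ) : ℝ) * a / (q : ℕ)) : ℝ) : ℂ) * Complex.I := by
    rw [map_mul, Complex.conj_ofReal, Complex.conj_I]
    push_cast
    ring
  rw [h1, Complex.exp_ofReal_mul_I_im]

theorem projective_ex (p k : ℕ) (hp : p.Prime) (hk : 0 < k) (hq : 2 < p ^ k) (Φ : Finset ℕ)
    (h : HalfSystem (p ^ k) Φ) (m : ℕ) :
    IsProjective (exData (p ^ k) (by omega) Φ m).group := by
  obtain ⟨w, hw, hwi⟩ := exists_weights p k hp hk hq Φ h
  set q := p ^ k with hqdef
  refine ⟨fun v v' => ∑ a : Φ, (w a : ℂ) * (v (Sum.inl a) * (starRingEnd ℂ) (v' (Sum.inl a))) +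
    ∑ i : Fin m, v (Sum.inr i) * (starRingEnd ℂ) (v' (Sum.inr i)), ?_, ?_, ?_, ?_, ?_⟩
  · intro u v v'
    simp only [Pi.add_apply]
    rw [show ∀ x y z t : ℂ, (x + y) + (z + t) = (x + z) + (y + t) from fun x y z t => by ring,
      ← Finset.sum_add_distrib, ← Finset.sum_add_distrib]
    congr 1
    · apply Finset.sum_congr rfl
      intro a _
      ring
    · apply Finset.sum_congr rfl
      intro i _
      ring
  · intro c v v'
    simp only [Pi.smul_apply, smul_eq_mul]
    rw [mul_add, Finset.mul_sum, Finset.mul_sum]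
    congr 1
    · apply Finset.sum_congr rfl
      intro a _
      ring
    · apply Finset.sum_congr rfl
      intro i _
      ring
  · intro v v'
    simp only [map_add, map_sum, map_mul, Complex.conj_conj, Complex.conj_ofReal]
    congr 1
    · apply Finset.sum_congr rfl
      intro a _
      ring
    · apply Finset.sum_congr rfl
      intro i _
      ring
  · intro v hv
    have h1 : ∀ z : ℂ, z * (starRingEnd ℂ) z = ((Complex.normSq z : ℝ) : ℂ) :=
      fun z => Complex.mul_conj z
    simp only [h1]
    rw [Complex.add_re, Complex.re_sum, Complex.re_sum]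
    have h2 : ∀ a : Φ, ((w a : ℂ) * ((Complex.normSq (v (Sum.inl a)) : ℝ) : ℂ)).re =
        w a * Complex.normSq (v (Sum.inl a)) := by
      intro a
      rw [← Complex.ofReal_mul, Complex.ofReal_re]
    have h3 : ∀ i : Fin m, (((Complex.normSq (v (Sum.inr i)) : ℝ) : ℂ)).re =
        Complex.normSq (v (Sum.inr i)) := fun i => Complex.ofReal_re _
    rw [Finset.sum_congr rfl (fun a _ => h2 a), Finset.sum_congr rfl (fun i _ => h3 i)]
    have hn1 : ∀ a ∈ (Finset.univ : Finset Φ), 0 ≤ w a * Complex.normSq (v (Sum.inl a)) :=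
      fun a _ => mul_nonneg (hw a a.2).le (Complex.normSq_nonneg _)
    have hn2 : ∀ i ∈ (Finset.univ : Finset (Fin m)), 0 ≤ Complex.normSq (v (Sum.inr i)) :=
      fun i _ => Complex.normSq_nonneg _
    have hs1 := Finset.sum_nonneg hn1
    have hs2 := Finset.sum_nonneg hn2
    by_contra hle
    push Not at hle
    have e1 : ∑ a : Φ, w a * Complex.normSq (v (Sum.inl a)) = 0 := by linarith
    have e2 : ∑ i : Fin m, Complex.normSq (v (Sum.inr i)) = 0 := by linarith
    apply hv
    ext i
    rcases i with a | i
    · have h4 := (Finset.sum_eq_zero_iff_of_nonneg hn1).mp e1 a (Finset.mem_univ a)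
      rcases mul_eq_zero.mp h4 with h5 | h5
      · exact absurd h5 (hw a a.2).ne'
      · exact Complex.normSq_eq_zero.mp h5
    · have h4 := (Finset.sum_eq_zero_iff_of_nonneg hn2).mp e2 i (Finset.mem_univ i)
      exact Complex.normSq_eq_zero.mp h4
  · intro v hv v' hv'
    rw [translations_ex q hq Φ h m] at hv hv'
    obtain ⟨hv1, hv2⟩ := hv
    obtain ⟨hv1', hv2'⟩ := hv'
    rw [mem_cycLattice] at hv1 hv1'
    obtain ⟨P, hP⟩ := hv1
    obtain ⟨Q, hQ⟩ := hv1'
    have h1 : ∀ P Q : ℤ[X], ∃ n : ℤ, (∑ a : Φ, (w a : ℂ) *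
        (aeval (root q a) P * (starRingEnd ℂ) (aeval (root q a) Q))).im = n := by
      intro P Q
      induction P using Polynomial.induction_on' with
      | add P P' h1 h2 =>
        obtain ⟨n, hn⟩ := h1
        obtain ⟨n', hn'⟩ := h2
        refine ⟨n + n', ?_⟩
        have : ∑ a : Φ, (w a : ℂ) * (aeval (root q a) (P + P') *
            (starRingEnd ℂ) (aeval (root q a) Q)) =
            ∑ a : Φ, (w a : ℂ) * (aeval (root q a) P * (starRingEnd ℂ) (aeval (root q a) Q)) +
            ∑ a : Φ, (w a : ℂ) *
              (aeval (root q a) P' * (starRingEnd ℂ) (aeval (root q a) Q)) := by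
          rw [← Finset.sum_add_distrib]
          apply Finset.sum_congr rfl
          intro a _
          rw [map_add]
          ring
        rw [this, Complex.add_im, hn, hn']
        push_cast
        ring
      | monomial i c =>
        induction Q using Polynomial.induction_on' with
        | add Q Q' h1 h2 =>
          obtain ⟨n, hn⟩ := h1
          obtain ⟨n', hn'⟩ := h2
          refine ⟨n + n', ?_⟩
          have : ∑ a : Φ, (w a : ℂ) * (aeval (root q a) (monomial i c) *
              (starRingEnd ℂ) (aeval (root q a) (Q + Q'))) =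
              ∑ a : Φ, (w a : ℂ) * (aeval (root q a) (monomial i c) *
                (starRingEnd ℂ) (aeval (root q a) Q)) +
              ∑ a : Φ, (w a : ℂ) * (aeval (root q a) (monomial i c) *
                (starRingEnd ℂ) (aeval (root q a) Q')) := by
            rw [← Finset.sum_add_distrib]
            apply Finset.sum_congr rfl
            intro a _
            rw [map_add, map_add]
            ring
          rw [this, Complex.add_im, hn, hn']
          push_cast
          ring
        | monomial l e =>
          obtain ⟨M, hM⟩ := hwi ((i : ℤ) - l)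
          refine ⟨c * e * M, ?_⟩
          have h2 : ∀ a : Φ, ((w a : ℂ) * (aeval (root q a) (monomial i c) *
              (starRingEnd ℂ) (aeval (root q a) (monomial l e)))).im =
              (c : ℝ) * e * (w a * Real.sin (2 * Real.pi *
                ((((i : ℤ) - (l : ℤ) : ℤ) : ℝ) * a / (q : ℕ)))) := by
            intro a
            rw [Polynomial.aeval_monomial, Polynomial.aeval_monomial]
            have h3 : (w a : ℂ) * ((algebraMap ℤ ℂ) c * root q a ^ i *
                (starRingEnd ℂ) ((algebraMap ℤ ℂ) e * root q a ^ l)) =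
                (((c : ℝ) * e * w a : ℝ) : ℂ) *
                (root q a ^ i * (starRingEnd ℂ) (root q a ^ l)) := by
              rw [map_mul]
              have h4 : (starRingEnd ℂ) ((algebraMap ℤ ℂ) e) = (e : ℂ) := by
                simp
              rw [h4]
              push_cast
              have h5 : (algebraMap ℤ ℂ) c = (c : ℂ) := rfl
              rw [h5]
              ring
            rw [h3, Complex.im_ofReal_mul]
            rw [im_mul_conj_monomial]
            ring
          rw [Complex.im_sum, Finset.sum_congr rfl (fun a _ => h2 a), ← Finset.mul_sum,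
            Finset.sum_coe_sort Φ (fun a => w a * Real.sin (2 * Real.pi *
                ((((i : ℤ) - (l : ℤ) : ℤ) : ℝ) * a / (q : ℕ)))), hM]
          push_cast
          ring
    obtain ⟨n, hn⟩ := h1 P Q
    have h2 : ∀ i : Fin m, ∃ n : ℤ, (v (Sum.inr i) * (starRingEnd ℂ) (v' (Sum.inr i))).im = n := by
      intro i
      obtain ⟨x, y, hxy⟩ := hv2 i
      obtain ⟨x', y', hxy'⟩ := hv2' i
      refine ⟨y * x' - x * y', ?_⟩
      rw [hxy, hxy']
      simp
      ring
    choose N hN using h2
    refine ⟨n + ∑ i, N i, ?_⟩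
    rw [Complex.add_im, Complex.im_sum (s := Finset.univ) (f := fun i : Fin m =>
      v (Sum.inr i) * (starRingEnd ℂ) (v' (Sum.inr i)))]
    have h3 : ∑ a : Φ, (w a : ℂ) * (v (Sum.inl a) * (starRingEnd ℂ) (v' (Sum.inl a))) =
        ∑ a : Φ, (w a : ℂ) * (aeval (root q a) P * (starRingEnd ℂ) (aeval (root q a) Q)) := by
      apply Finset.sum_congr rfl
      intro a _
      rw [hP a, hQ a]
    rw [h3, hn, Finset.sum_congr rfl (fun i _ => hN i)]
    push_cast
    rfl

end Pool.Agent.TorusIdx
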