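import Pool.Agent.TorusIdx.Example3

/-!
# Optimality of the index
-/

namespace Pool.Agent.TorusIdx

open Module

/-- The torus quotient attached to a half system modulo a prime power forces the order of the
determinant of its generator to divide every common index. -/
theorem pow_root_eq_one (d I : ℕ)
    (hI : ∀ (V : Type) [NormedAddCommGroup V] [NormedSpace ℂ V] [FiniteDimensional ℂ V]
      (Γ : Subgroup (V ≃ᵃ[ℂ] V)), finrank ℂ V = d → IsTorusQuotient Γ →
      HasCanonicalSingularities Γ → IsProjective Γ → CanonicalPowerTrivial Γ I)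
    (p k : ℕ) (hp : p.Prime) (hk : 0 < k) (hq : 2 < p ^ k) (Φ : Finset ℕ)
    (h : HalfSystem (p ^ k) Φ) (hcard : 2 ≤ Φ.card) (hle : Φ.card ≤ d)
    (hage : Φ.card = d → ∀ c : ℕ, c < p ^ k → c ≠ 0 → p ^ k ≤ ∑ a ∈ Φ, (c * a) % p ^ k) :
    (root (p ^ k) (∑ a ∈ Φ, a)) ^ I = 1 := by
  obtain ⟨m, hm⟩ : ∃ m, m = d - Φ.card := ⟨_, rfl⟩
  have hT := isTorusQuotient_ex (p ^ k) hq Φ h m hcard
  have hC : HasCanonicalSingularities (exData (p ^ k) (by omega) Φ m).group := by
    apply canonical_ex (p ^ k) hq Φ m
    intro hm0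
    exact hage (by omega)
  have hP := projective_ex p k hp hk hq Φ h m
  have hdim : finrank ℂ ((Φ ⊕ Fin m) → ℂ) = d := by
    rw [Module.finrank_fintype_fun_eq_card, Fintype.card_sum, Fintype.card_coe, Fintype.card_fin]
    omega
  have hK := hI _ _ hdim hT hC hP
  rw [canonicalPowerTrivial_iff hT] at hK
  have h1 := hK _ (CycData.gen_mem _)
  rw [det_gen] at h1
  exact h1

theorem root_eq_exp (q S : ℕ) : root q S = root q 1 ^ S := by
  rw [root_pow_eq, root]
  congr 1
  push_cast
  ring

theorem dvd_of_root_pow (q S I : ℕ) (hq : q ≠ 0) (h : (root q S) ^ I = 1) : q ∣ S * I := by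
  rw [root_eq_exp, ← pow_mul] at h
  exact ((root_prim q 1 hq (Nat.coprime_one_left q)).pow_eq_one_iff_dvd _).mp h

/-- The optimality of the index, in dimension at least four. -/
theorem torusIndex_dvd (d : ℕ) (hd : 4 ≤ d) (I : ℕ)
    (hI : ∀ (V : Type) [NormedAddCommGroup V] [NormedSpace ℂ V] [FiniteDimensional ℂ V]
      (Γ : Subgroup (V ≃ᵃ[ℂ] V)), finrank ℂ V = d → IsTorusQuotient Γ →
      HasCanonicalSingularities Γ → IsProjective Γ → CanonicalPowerTrivial Γ I) :
    torusIndex d ∣ I := by
  unfold torusIndex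
  apply Nat.Coprime.mul_dvd_of_dvd_of_dvd
  · apply Nat.Coprime.pow_left
    apply Nat.Coprime.prod_right
    intro p hp
    obtain ⟨_, hp1, hp2⟩ := Finset.mem_filter.mp hp
    exact Nat.Coprime.pow_right _ ((Nat.coprime_primes Nat.prime_two hp1).mpr (Ne.symm hp2))
  · -- the prime two
    set j := Nat.log 2 (2 * d) with hj
    have hj3 : 3 ≤ j := by
      rw [hj]
      exact (Nat.le_log_iff_pow_le (by norm_num) (by omega)).mpr (by omega)
    have hjle : 2 ^ j ≤ 2 * d := Nat.pow_log_le_self 2 (by omega)
    have hq : 2 < 2 ^ (j + 1) := by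
      calc 2 < 2 ^ 2 := by norm_num
        _ ≤ 2 ^ (j + 1) := Nat.pow_le_pow_right (by norm_num) (by omega)
    have hΦ := twoType_half hq
    have hcard := hΦ.card hq
    have htot : (2 ^ (j + 1)).totient = 2 ^ j := by
      rw [Nat.totient_prime_pow Nat.prime_two (by omega)]
      simp
    rw [htot] at hcard
    have h8 : 2 ^ j = 2 * 2 ^ (j - 1) := by
      rw [← pow_succ']
      congr 1
      omega
    have hc1 : (twoType (2 ^ (j + 1))).card = 2 ^ (j - 1) := by omega
    have hc2 : 4 ≤ 2 ^ (j - 1) := by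
      calc 4 = 2 ^ 2 := by norm_num
        _ ≤ 2 ^ (j - 1) := Nat.pow_le_pow_right (by norm_num) (by omega)
    have hroot := pow_root_eq_one d I hI 2 (j + 1) Nat.prime_two (by omega) hq _ hΦ (by omega)
      (by omega) (by
        intro hcd c hc hc0
        by_cases hj4 : j = 3
        · rw [hj4] at hc ⊢
          exact age_sum_sixteen c (by simpa using hc) hc0
        · have h9 : 8 ≤ 2 ^ (j - 1) := by
            calc 8 = 2 ^ 3 := by norm_num
              _ ≤ 2 ^ (j - 1) := Nat.pow_le_pow_right (by norm_num) (by omega)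
          exact age_sum_ge 2 (j + 1) d Nat.prime_two (by omega) (by rw [htot]; omega)
            (by intro h; exact absurd rfl h) (by intro _; omega) _ hΦ c (by
              intro hdvd
              exact absurd (Nat.le_of_dvd (Nat.pos_of_ne_zero hc0) hdvd) (by omega)))
    have hdvd := dvd_of_root_pow _ _ _ (by omega) hroot
    have hsum := sum_twoType j (by omega)
    -- the sum is twice an odd number
    obtain ⟨u, hu⟩ : ∃ u, ∑ a ∈ twoType (2 ^ (j + 1)), a = 2 * u := by
      refine ⟨(∑ a ∈ twoType (2 ^ (j + 1)), a) / 2, ?_⟩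
      omega
    rw [hu] at hdvd hsum
    have hodd : Nat.Coprime (2 ^ j) u := by
      apply Nat.Coprime.pow_left
      rw [Nat.coprime_two_left]
      rw [Nat.odd_iff]
      omega
    have h10 : 2 ^ j ∣ u * I := by
      have h11 : 2 * 2 ^ j ∣ 2 * (u * I) := by
        rw [← pow_succ', ← mul_assoc]
        exact hdvd
      exact Nat.dvd_of_mul_dvd_mul_left (by norm_num) h11
    exact hodd.dvd_of_dvd_mul_left h10
  · -- odd primes
    apply Finset.prod_dvd_of_isRelPrime
    · intro p hp p' hp' hne
      obtain ⟨_, hp1, hp2⟩ := Finset.mem_filter.mp hp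
      obtain ⟨_, hp1', hp2'⟩ := Finset.mem_filter.mp hp'
      exact Nat.coprime_iff_isRelPrime.mp
        (Nat.Coprime.pow _ _ ((Nat.coprime_primes hp1 hp1').mpr hne))
    · intro p hp
      obtain ⟨hpr, hp1, hp2⟩ := Finset.mem_filter.mp hp
      rw [Finset.mem_range] at hpr
      set k := Nat.log p (2 * d / (p - 1)) + 1 with hk
      have hk0 : 0 < k := by omega
      have hp3 : 3 ≤ p := by
        have := hp1.two_le
        omega
      have hdiv : 2 * d / (p - 1) ≠ 0 := by
        have h1 : 1 ≤ 2 * d / (p - 1) := (Nat.le_div_iff_mul_le (by omega)).mpr (by omega)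
        omega
      have hlog : p ^ (k - 1) ≤ 2 * d / (p - 1) := by
        rw [hk, Nat.add_sub_cancel]
        exact Nat.pow_log_le_self p hdiv
      have htotle : p ^ (k - 1) * (p - 1) ≤ 2 * d := (Nat.le_div_iff_mul_le (by omega)).mp hlog
      have htot : (p ^ k).totient = p ^ (k - 1) * (p - 1) := Nat.totient_prime_pow hp1 hk0
      have hq : 2 < p ^ k := lt_of_lt_of_le (by omega) (Nat.le_self_pow hk0.ne' p)
      obtain ⟨Φ, hΦ, hcop⟩ := exists_odd_type p k hp1 hp2 hk0
      have hcard := hΦ.card hq
      rw [htot] at hcard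
      have hcle : Φ.card ≤ d := by omega
      have hc2 : 2 ≤ Φ.card := by
        by_cases hp5 : p = 3
        · subst hp5
          have h1 : 1 ≤ Nat.log 3 (2 * d / (3 - 1)) := by
            rw [Nat.le_log_iff_pow_le (by norm_num) hdiv]
            omega
          have h2 : 3 ^ 1 ≤ 3 ^ (k - 1) := Nat.pow_le_pow_right (by norm_num) (by omega)
          omega
        · have h1 : 4 ≤ p - 1 := by
            have h2 : p ≠ 4 := by
              rintro rfl
              exact absurd hp1 (by norm_num)
            omega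
          have h2 : 1 * (p - 1) ≤ p ^ (k - 1) * (p - 1) :=
            Nat.mul_le_mul_right _ (pow_pos hp1.pos _)
          omega
      have hpodd : Odd p := hp1.odd_of_ne_two hp2
      have hroot := pow_root_eq_one d I hI p k hp1 hk0 hq Φ hΦ hc2 hcle (by
        intro hcd c hc hc0
        have hd5 : 5 ≤ d := by
          by_contra h4
          have h5 : d = 4 := by omega
          have h6 : p ^ (k - 1) * (p - 1) = 8 := by omega
          have h7 : Odd (p ^ (k - 1)) := hpodd.pow
          have h8 : Nat.Coprime (p ^ (k - 1)) (2 ^ 3) :=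
            Nat.Coprime.pow_right 3 (Nat.coprime_two_right.mpr h7)
          have h9 : p ^ (k - 1) = 1 := h8.eq_one_of_dvd ⟨p - 1, by rw [h6]; norm_num⟩
          rw [h9, one_mul] at h6
          have h10 : p = 9 := by omega
          subst h10
          exact absurd hp1 (by norm_num)
        exact age_sum_ge p k d hp1 hk0 (by rw [htot]; omega) (fun _ => hd5)
          (fun h => absurd h hp2) Φ hΦ c (fun hdvd =>
            absurd (Nat.le_of_dvd (Nat.pos_of_ne_zero hc0) hdvd) (by omega)))
      have hdvd := dvd_of_root_pow _ _ _ (by omega) hroot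
      exact hcop.symm.dvd_of_dvd_mul_left hdvd

end Pool.Agent.TorusIdx
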