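import Mathlib

/-!
# Half systems modulo a prime power (CM types of cyclotomic fields)
-/

namespace Pool.Agent.TorusIdx

/-- A set of representatives of the units modulo `q` up to sign. -/
structure HalfSystem (q : ℕ) (Φ : Finset ℕ) : Prop where
  lt : ∀ a ∈ Φ, a < q
  cop : ∀ a ∈ Φ, a.Coprime q
  half : ∀ a, a < q → a.Coprime q → (a ∈ Φ ↔ q - a ∉ Φ)

theorem HalfSystem.pos {q : ℕ} (hq : 2 < q) {Φ : Finset ℕ} (h : HalfSystem q Φ) (a : ℕ)
    (ha : a ∈ Φ) : 0 < a := by
  rcases Nat.eq_zero_or_pos a with h0 | h0
  · subst h0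
    have := h.cop 0 ha
    rw [Nat.coprime_zero_left] at this
    omega
  · exact h0

theorem coprime_sub {q a : ℕ} (ha : a ≤ q) (h : a.Coprime q) : (q - a).Coprime q :=
  (Nat.coprime_self_sub_left ha).mpr h

theorem HalfSystem.card {q : ℕ} (hq : 2 < q) {Φ : Finset ℕ} (h : HalfSystem q Φ) :
    2 * Φ.card = q.totient := by
  classical
  have h1 : q.totient = ((Finset.range q).filter (fun a => q.Coprime a)).card :=
    Nat.totient_eq_card_coprime q
  have h2 : (Finset.range q).filter (fun a => q.Coprime a) = Φ ∪ Φ.image (fun a => q - a) := by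
    ext a
    simp only [Finset.mem_filter, Finset.mem_range, Finset.mem_union, Finset.mem_image]
    constructor
    · rintro ⟨ha, hc⟩
      by_cases hm : a ∈ Φ
      · exact Or.inl hm
      · right
        have h3 : ¬ (q - a ∉ Φ) := fun h4 => hm ((h.half a ha hc.symm).mpr h4)
        push Not at h3
        exact ⟨q - a, h3, by omega⟩
    · rintro (ha | ⟨b, hb, rfl⟩)
      · exact ⟨h.lt a ha, (h.cop a ha).symm⟩
      · have hb0 := h.pos hq b hb
        have hblt := h.lt b hb
        exact ⟨by omega, (coprime_sub hblt.le (h.cop b hb)).symm⟩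
  have h3 : Disjoint Φ (Φ.image (fun a => q - a)) := by
    rw [Finset.disjoint_left]
    intro a ha hb
    obtain ⟨b, hb, hab⟩ := Finset.mem_image.mp hb
    have h4 := (h.half a (h.lt a ha) (h.cop a ha)).mp ha
    have hblt := h.lt b hb
    have h5 : q - a = b := by omega
    rw [h5] at h4
    exact h4 hb
  have h4 : (Φ.image (fun a => q - a)).card = Φ.card := by
    apply Finset.card_image_of_injOn
    intro a ha b hb hab
    have h5 := h.lt a ha
    have h6 := h.lt b hb
    simp only at hab
    omega
  rw [h1, h2, Finset.card_union_of_disjoint h3, h4]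
  ring

theorem HalfSystem.sum_units {q : ℕ} (hq : 2 < q) {Φ : Finset ℕ} (h : HalfSystem q Φ)
    (g : ℕ → ℝ) : ∑ a ∈ (Finset.range q).filter (fun a => a.Coprime q), g a =
      ∑ a ∈ Φ, (g a + g (q - a)) := by
  classical
  have h2 : (Finset.range q).filter (fun a => a.Coprime q) = Φ ∪ Φ.image (fun a => q - a) := by
    ext a
    simp only [Finset.mem_filter, Finset.mem_range, Finset.mem_union, Finset.mem_image]
    constructor
    · rintro ⟨ha, hc⟩
      by_cases hm : a ∈ Φ
      · exact Or.inl hm
      · right
        have h3 : ¬ (q - a ∉ Φ) := fun h4 => hm ((h.half a ha hc).mpr h4)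
        push Not at h3
        exact ⟨q - a, h3, by omega⟩
    · rintro (ha | ⟨b, hb, rfl⟩)
      · exact ⟨h.lt a ha, h.cop a ha⟩
      · have hb0 := h.pos hq b hb
        have hblt := h.lt b hb
        exact ⟨by omega, coprime_sub hblt.le (h.cop b hb)⟩
  have h3 : Disjoint Φ (Φ.image (fun a => q - a)) := by
    rw [Finset.disjoint_left]
    intro a ha hb
    obtain ⟨b, hb, hab⟩ := Finset.mem_image.mp hb
    have h4 := (h.half a (h.lt a ha) (h.cop a ha)).mp ha
    have hblt := h.lt b hb
    have h5 : q - a = b := by omega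
    rw [h5] at h4
    exact h4 hb
  rw [h2, Finset.sum_union h3, Finset.sum_image, Finset.sum_add_distrib]
  intro a ha b hb hab
  have h5 := h.lt a ha
  have h6 := h.lt b hb
  simp only at hab
  omega

/-- The units below `q / 2`. -/
def stdType (q : ℕ) : Finset ℕ := (Finset.range q).filter (fun a => a.Coprime q ∧ 2 * a < q)

theorem stdType_half {q : ℕ} (hq : 2 < q) : HalfSystem q (stdType q) where
  lt := by
    intro a ha
    exact Finset.mem_range.mp (Finset.mem_filter.mp ha).1
  cop := by
    intro a ha
    exact (Finset.mem_filter.mp ha).2.1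
  half := by
    intro a ha hc
    have h0 : 0 < a := by
      rcases Nat.eq_zero_or_pos a with h0 | h0
      · subst h0
        rw [Nat.coprime_zero_left] at hc
        omega
      · exact h0
    have hne : 2 * a ≠ q := by
      intro h2
      have h3 : a ∣ q := ⟨2, by omega⟩
      have h4 : a = 1 := hc.eq_one_of_dvd h3
      omega
    have hc' := coprime_sub ha.le hc
    simp only [stdType, Finset.mem_filter, Finset.mem_range]
    constructor
    · rintro ⟨_, _, h3⟩ ⟨_, _, h4⟩
      omega
    · intro h3
      refine ⟨ha, hc, ?_⟩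
      by_contra h4
      exact h3 ⟨by omega, hc', by omega⟩

/-- The standard half system with `1` replaced by `q - 1`. -/
def altType (q : ℕ) : Finset ℕ := insert (q - 1) ((stdType q).erase 1)

theorem altType_half {q : ℕ} (hq : 2 < q) : HalfSystem q (altType q) where
  lt := by
    intro a ha
    rw [altType, Finset.mem_insert, Finset.mem_erase] at ha
    rcases ha with rfl | ⟨_, ha⟩
    · omega
    · exact (stdType_half hq).lt a ha
  cop := by
    intro a ha
    rw [altType, Finset.mem_insert, Finset.mem_erase] at ha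
    rcases ha with rfl | ⟨_, ha⟩
    · exact coprime_sub (by omega) (Nat.coprime_one_left q)
    · exact (stdType_half hq).cop a ha
  half := by
    intro a ha hc
    have h0 : 0 < a := by
      rcases Nat.eq_zero_or_pos a with h0 | h0
      · subst h0
        rw [Nat.coprime_zero_left] at hc
        omega
      · exact h0
    have hs := (stdType_half hq).half a ha hc
    have h1 : 1 ∈ stdType q := by
      simp only [stdType, Finset.mem_filter, Finset.mem_range]
      exact ⟨by omega, Nat.coprime_one_left q, by omega⟩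
    have h2 : q - 1 ∉ stdType q := by
      have := ((stdType_half hq).half 1 (by omega) (Nat.coprime_one_left q)).mp h1
      exact this
    simp only [altType, Finset.mem_insert, Finset.mem_erase]
    by_cases ha1 : a = 1
    · subst ha1
      have : ¬ (1 = q - 1) := by omega
      simp [this]
    · by_cases haq : a = q - 1
      · subst haq
        have h3 : q - (q - 1) = 1 := by omega
        have h4 : ¬ (1 = q - 1) := by omega
        simp [h3, h4]
      · have h3 : ¬ (q - a = q - 1) := by omega
        have h4 : ¬ (q - a = 1) := by omega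
        simp only [ha1, haq, h3, h4, false_or, ne_eq, not_false_eq_true, true_and]
        exact hs

theorem one_mem_stdType {q : ℕ} (hq : 2 < q) : 1 ∈ stdType q := by
  simp only [stdType, Finset.mem_filter, Finset.mem_range]
  exact ⟨by omega, Nat.coprime_one_left q, by omega⟩

theorem sum_altType {q : ℕ} (hq : 2 < q) :
    ∑ a ∈ altType q, a + 2 = ∑ a ∈ stdType q, a + q := by
  have h1 := one_mem_stdType hq
  have h2 : q - 1 ∉ (stdType q).erase 1 := by
    intro h3
    have h4 := (Finset.mem_erase.mp h3).2
    exact (((stdType_half hq).half 1 (by omega) (Nat.coprime_one_left q)).mp h1) h4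
  rw [altType, Finset.sum_insert h2]
  have h3 := Finset.add_sum_erase (stdType q) (fun a => a) h1
  omega

/-- For an odd prime power there is a half system whose sum is prime to `p`. -/
theorem exists_odd_type (p k : ℕ) (hp : p.Prime) (hp2 : p ≠ 2) (hk : 0 < k) :
    ∃ Φ, HalfSystem (p ^ k) Φ ∧ (∑ a ∈ Φ, a).Coprime (p ^ k) := by
  have hp3 : 2 < p := lt_of_le_of_ne hp.two_le (Ne.symm hp2)
  have hq : 2 < p ^ k := lt_of_lt_of_le hp3 (Nat.le_self_pow hk.ne' p)
  by_cases h : p ∣ ∑ a ∈ stdType (p ^ k), a
  · refine ⟨altType (p ^ k), altType_half hq, ?_⟩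
    rw [Nat.coprime_pow_right_iff hk, Nat.coprime_comm, Nat.Prime.coprime_iff_not_dvd hp]
    intro h2
    have h3 := sum_altType hq
    have h4 : p ∣ p ^ k := dvd_pow_self p hk.ne'
    have h5 : p ∣ ∑ a ∈ altType (p ^ k), a + 2 := by
      rw [h3]
      exact dvd_add h h4
    have h6 : p ∣ 2 := (Nat.dvd_add_right h2).mp h5
    have h7 := Nat.le_of_dvd (by norm_num) h6
    omega
  · refine ⟨stdType (p ^ k), stdType_half hq, ?_⟩
    rw [Nat.coprime_pow_right_iff hk, Nat.coprime_comm, Nat.Prime.coprime_iff_not_dvd hp]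
    exact h

/-- For a power of two there is a half system whose sum is twice an odd number. -/
theorem even_sum_std (j : ℕ) (hj : 2 ≤ j) : 2 ∣ ∑ a ∈ stdType (2 ^ (j + 1)), a := by
  have hq : 2 < 2 ^ (j + 1) := by
    calc 2 < 2 ^ 2 := by norm_num
      _ ≤ 2 ^ (j + 1) := Nat.pow_le_pow_right (by norm_num) (by omega)
  have h1 := (stdType_half hq).card hq
  have h2 : (2 ^ (j + 1)).totient = 2 ^ j := by
    rw [Nat.totient_prime_pow Nat.prime_two (by omega)]
    simp
  rw [h2] at h1
  have h3 : 2 ^ j = 4 * 2 ^ (j - 2) := by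
    have : (4 : ℕ) = 2 ^ 2 := by norm_num
    rw [this, ← pow_add]
    congr 1
    omega
  have h4 : (stdType (2 ^ (j + 1))).card = 2 * 2 ^ (j - 2) := by omega
  have h5 : (∑ a ∈ stdType (2 ^ (j + 1)), a) % 2 = (∑ a ∈ stdType (2 ^ (j + 1)), 1) % 2 := by
    rw [Finset.sum_nat_mod]
    congr 1
    apply Finset.sum_congr rfl
    intro a ha
    have h6 := (stdType_half hq).cop a ha
    rw [Nat.coprime_pow_right_iff (by omega)] at h6
    have h7 : Odd a := (Nat.coprime_two_right).mp h6
    exact Nat.odd_iff.mp h7
  rw [Finset.sum_const, smul_eq_mul, mul_one, h4] at h5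
  omega

/-- The half system used for powers of two. -/
def twoType (q : ℕ) : Finset ℕ := if (∑ a ∈ stdType q, a) % 4 = 2 then stdType q else altType q

theorem twoType_half {q : ℕ} (hq : 2 < q) : HalfSystem q (twoType q) := by
  unfold twoType
  split_ifs
  · exact stdType_half hq
  · exact altType_half hq

theorem sum_twoType (j : ℕ) (hj : 2 ≤ j) : (∑ a ∈ twoType (2 ^ (j + 1)), a) % 4 = 2 := by
  have hq : 2 < 2 ^ (j + 1) := by
    calc 2 < 2 ^ 2 := by norm_num
      _ ≤ 2 ^ (j + 1) := Nat.pow_le_pow_right (by norm_num) (by omega)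
  unfold twoType
  split_ifs with h
  · exact h
  · have h1 := even_sum_std j hj
    have h2 := sum_altType hq
    have h3 : 4 ∣ 2 ^ (j + 1) := by
      have : (4 : ℕ) = 2 ^ 2 := by norm_num
      rw [this]
      exact pow_dvd_pow 2 (by omega)
    omega

end Pool.Agent.TorusIdx
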