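import Pool.Agent.TorusIdx.Count

/-!
# The order of the determinant of an automorphism of a complex torus
-/

namespace Pool.Agent.TorusIdx

open Polynomial Module

variable {V : Type} [NormedAddCommGroup V] [NormedSpace ℂ V] [FiniteDimensional ℂ V]

theorem root_pow_eq_one (B : V →ₗ[ℂ] V) (n : ℕ) (hB : B ^ n = 1) (μ : ℂ)
    (hμ : μ ∈ B.charpoly.roots) : μ ^ n = 1 := by
  have h1 : B.charpoly.IsRoot μ := Polynomial.isRoot_of_mem_roots hμ
  have h2 : Module.End.HasEigenvalue B μ :=
    (Module.End.hasEigenvalue_iff_isRoot_charpoly B μ).mpr h1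
  obtain ⟨v, hv⟩ := h2.exists_hasEigenvector
  have h3 : ∀ m : ℕ, (B ^ m) v = μ ^ m • v := fun m => hv.pow_apply m
  have h4 := h3 n
  rw [hB] at h4
  have h5 : (μ ^ n - 1) • v = 0 := by
    rw [sub_smul, one_smul, ← h4]
    simp
  rcases smul_eq_zero.mp h5 with h6 | h6
  · exact sub_eq_zero.mp h6
  · exact absurd h6 hv.2

theorem det_eq_prod_roots (B : V →ₗ[ℂ] V) : LinearMap.det B = B.charpoly.roots.prod :=
  Module.End.det_eq_prod_roots_charpoly_of_splits (IsAlgClosed.splits _)

/-- The key bound for an automorphism of prime power order. -/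
theorem prime_power_bound (L : Submodule ℤ V) [DiscreteTopology L] [IsZLattice ℝ L]
    (B : V →ₗ[ℂ] V) (hBL : ∀ v ∈ L, B v ∈ L) (p K : ℕ) (hp : p.Prime) (hB : B ^ (p ^ K) = 1)
    (e : ℕ) (hdet : (LinearMap.det B) ^ (p ^ e) ≠ 1) :
    (p ^ (e + 1)).totient ≤ 2 * finrank ℂ V ∧
      (p = 2 → 2 ≤ e → 2 ^ (e + 1) ≤ 2 * finrank ℂ V) := by
  classical
  set s := B.charpoly.roots with hs
  have hroot : ∀ μ ∈ s, μ ^ (p ^ K) = 1 := fun μ hμ => root_pow_eq_one B _ hB μ hμ
  have hex : ∃ k, ∀ μ ∈ s, μ ^ (p ^ k) = 1 := ⟨K, hroot⟩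
  set k := Nat.find hex with hk
  have hkspec : ∀ μ ∈ s, μ ^ (p ^ k) = 1 := Nat.find_spec hex
  have hprod : ∀ n : ℕ, (LinearMap.det B) ^ n = (s.map (fun μ => μ ^ n)).prod := by
    intro n
    rw [det_eq_prod_roots, Multiset.prod_map_pow, Multiset.map_id']
  have hdetk : (LinearMap.det B) ^ (p ^ k) = 1 := by
    rw [hprod]
    apply Multiset.prod_eq_one
    intro x hx
    obtain ⟨μ, hμ, rfl⟩ := Multiset.mem_map.mp hx
    exact hkspec μ hμ
  have hke : e + 1 ≤ k := by
    by_contra hlt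
    push Not at hlt
    apply hdet
    have h1 : p ^ e = p ^ k * p ^ (e - k) := by
      rw [← pow_add]
      congr 1
      omega
    rw [h1, pow_mul, hdetk, one_pow]
  have hk1 : k - 1 + 1 = k := by omega
  have hnot : ¬ ∀ μ ∈ s, μ ^ (p ^ (k - 1)) = 1 := Nat.find_min hex (by omega)
  push Not at hnot
  obtain ⟨μ, hμs, hμ⟩ := hnot
  have hfact : Fact p.Prime := ⟨hp⟩
  have hprimiff : ∀ ν ∈ s, ν ^ (p ^ (k - 1)) ≠ 1 → IsPrimitiveRoot ν (p ^ k) := by
    intro ν hν hne
    have h1 : orderOf ν = p ^ (k - 1 + 1) := by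
      apply orderOf_eq_prime_pow hne
      rw [hk1]
      exact hkspec ν hν
    rw [hk1] at h1
    rw [← h1]
    exact IsPrimitiveRoot.orderOf ν
  have hprim : IsPrimitiveRoot μ (p ^ k) := hprimiff μ hμs hμ
  obtain ⟨Q, hQ, -, hQP⟩ := exists_int_charpoly L B hBL
  obtain ⟨m, hm⟩ := two_mul_count (p ^ k) (pow_pos hp.pos k) B.charpoly B.charpoly_monic Q hQ hQP
  rw [← hs] at hm
  set c := (s.filter (fun z => IsPrimitiveRoot z (p ^ k))).card with hc
  have hcpos : 0 < c := by
    rw [hc, Multiset.card_pos_iff_exists_mem]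
    exact ⟨μ, Multiset.mem_filter.mpr ⟨hμs, hprim⟩⟩
  have hcle : c ≤ finrank ℂ V := by
    have h1 : c ≤ s.card := Multiset.card_le_card (Multiset.filter_le _ _)
    have h2 : s.card ≤ B.charpoly.natDegree := Polynomial.card_roots' _
    rw [LinearMap.charpoly_natDegree] at h2
    omega
  have hmpos : 0 < m := by
    rcases Nat.eq_zero_or_pos m with h | h
    · rw [h] at hm
      omega
    · exact h
  have hphi : (p ^ k).totient ≤ 2 * finrank ℂ V := by
    calc (p ^ k).totient ≤ m * (p ^ k).totient := Nat.le_mul_of_pos_left _ hmpos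
      _ = 2 * c := hm.symm
      _ ≤ 2 * finrank ℂ V := by omega
  refine ⟨?_, ?_⟩
  · refine le_trans (Nat.le_of_dvd (Nat.totient_pos.mpr (pow_pos hp.pos k)) ?_) hphi
    exact Nat.totient_dvd_of_dvd (pow_dvd_pow p hke)
  · intro hp2 he
    subst hp2
    have htot : (2 ^ k).totient = 2 ^ (k - 1) := by
      rw [Nat.totient_prime_pow Nat.prime_two (by omega)]
      simp
    have hceven : Even c := by
      rw [htot] at hm
      have h1 : 2 ^ (k - 1) = 2 * 2 ^ (k - 2) := by
        rw [← pow_succ']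
        congr 1
        omega
      have h2 : c = m * 2 ^ (k - 2) := by
        rw [h1] at hm
        nlinarith
      rw [h2]
      have h3 : 2 ^ (k - 2) = 2 * 2 ^ (k - 3) := by
        rw [← pow_succ']
        congr 1
        omega
      rw [h3]
      exact ⟨m * 2 ^ (k - 3), by ring⟩
    have hdet' : (LinearMap.det B) ^ (2 ^ (k - 1)) = 1 := by
      rw [hprod, ← Multiset.filter_add_not (fun z => IsPrimitiveRoot z (2 ^ k)) s,
        Multiset.map_add, Multiset.prod_add]
      have h1 : ((s.filter (fun z => IsPrimitiveRoot z (2 ^ k))).map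
          (fun μ => μ ^ (2 ^ (k - 1)))) =
          (s.filter (fun z => IsPrimitiveRoot z (2 ^ k))).map (fun _ => (-1 : ℂ)) := by
        refine Multiset.map_congr rfl ?_
        intro ν hν
        have hν' := (Multiset.mem_filter.mp hν).2
        have h2 : (ν ^ (2 ^ (k - 1))) ^ 2 = 1 := by
          rw [← pow_mul, ← pow_succ, hk1]
          exact hν'.pow_eq_one
        have h3 : ν ^ (2 ^ (k - 1)) ≠ 1 := by
          intro h4
          have h5 := (hν'.dvd_of_pow_eq_one _ h4)
          have h6 := Nat.le_of_dvd (pow_pos two_pos _) h5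
          have h7 : 2 ^ (k - 1) < 2 ^ k := Nat.pow_lt_pow_right (by norm_num) (by omega)
          omega
        have h4 : (ν ^ (2 ^ (k - 1)) - 1) * (ν ^ (2 ^ (k - 1)) + 1) = 0 := by
          linear_combination h2
        rcases mul_eq_zero.mp h4 with h | h
        · exact absurd (sub_eq_zero.mp h) h3
        · exact eq_neg_of_add_eq_zero_left h
      have h2 : ((s.filter (fun z => ¬ IsPrimitiveRoot z (2 ^ k))).map
          (fun μ => μ ^ (2 ^ (k - 1)))).prod = 1 := by
        apply Multiset.prod_eq_one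
        intro x hx
        obtain ⟨ν, hν, rfl⟩ := Multiset.mem_map.mp hx
        obtain ⟨hν1, hν2⟩ := Multiset.mem_filter.mp hν
        by_contra hne
        exact hν2 (hprimiff ν hν1 hne)
      rw [h1, h2, Multiset.map_const', Multiset.prod_replicate, ← hc, hceven.neg_one_pow, mul_one]
    have hke' : e + 1 ≤ k - 1 := by
      by_contra hlt
      push Not at hlt
      apply hdet
      have h1 : 2 ^ e = 2 ^ (k - 1) * 2 ^ (e - (k - 1)) := by
        rw [← pow_add]
        congr 1
        omega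
      rw [h1, pow_mul, hdet', one_pow]
    calc 2 ^ (e + 1) ≤ 2 ^ (k - 1) := Nat.pow_le_pow_right (by norm_num) hke'
      _ = (2 ^ k).totient := htot.symm
      _ ≤ 2 * finrank ℂ V := hphi

/-- The index bound: the determinant of an automorphism of finite order of a `d`-dimensional
complex torus has order dividing `torusIndex d`. -/
theorem det_pow_torusIndex (hd : 2 ≤ finrank ℂ V) (L : Submodule ℤ V) [DiscreteTopology L]
    [IsZLattice ℝ L] (A : V →ₗ[ℂ] V) (hAL : ∀ v ∈ L, A v ∈ L) (M : ℕ) (hM : 0 < M)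
    (hA : A ^ M = 1) : (LinearMap.det A) ^ torusIndex (finrank ℂ V) = 1 := by
  rw [← orderOf_dvd_iff_pow_eq_one]
  set o := orderOf (LinearMap.det A) with ho
  have hoM : o ∣ M := by
    rw [ho, orderOf_dvd_iff_pow_eq_one, ← map_pow, hA, map_one]
  rw [Nat.dvd_iff_prime_pow_dvd_dvd]
  intro p e hp hpe
  rcases Nat.eq_zero_or_pos e with he0 | he0
  · rw [he0, pow_zero]
    exact one_dvd _
  set K := M.factorization p with hK
  set M' := M / p ^ K with hM'
  have hMM : p ^ K * M' = M := Nat.ordProj_mul_ordCompl_eq_self M p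
  have hpM' : ¬ p ∣ M' := Nat.not_dvd_ordCompl hp hM.ne'
  set B := A ^ M' with hBdef
  have hBL : ∀ v ∈ L, B v ∈ L := by
    have h1 : ∀ n : ℕ, ∀ v ∈ L, (A ^ n) v ∈ L := by
      intro n
      induction n with
      | zero => intro v hv; simpa using hv
      | succ n ih =>
        intro v hv
        rw [pow_succ]
        exact ih _ (hAL v hv)
    exact h1 M'
  have hBpow : B ^ (p ^ K) = 1 := by
    rw [hBdef, ← pow_mul, mul_comm, hMM, hA]
  have hdetB : (LinearMap.det B) ^ (p ^ (e - 1)) ≠ 1 := by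
    rw [hBdef, map_pow, ← pow_mul]
    intro h
    have h1 : o ∣ M' * p ^ (e - 1) := orderOf_dvd_of_pow_eq_one h
    have h2 : p ^ e ∣ M' * p ^ (e - 1) := dvd_trans hpe h1
    have h3 : p ^ e = p * p ^ (e - 1) := by
      rw [← pow_succ']
      congr 1
      omega
    rw [h3] at h2
    exact hpM' (Nat.dvd_of_mul_dvd_mul_right (pow_pos hp.pos _) h2)
  obtain ⟨h1, h2⟩ := prime_power_bound L B hBL p K hp hBpow (e - 1) hdetB
  have he1 : e - 1 + 1 = e := by omega
  rw [he1] at h1 h2
  set d := finrank ℂ V with hdd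
  by_cases hp2 : p = 2
  · subst hp2
    have h3 : 2 ^ e ≤ 2 * d := by
      by_cases he : 2 ≤ e - 1
      · exact h2 rfl he
      · calc 2 ^ e ≤ 2 ^ 2 := Nat.pow_le_pow_right (by norm_num) (by omega)
          _ ≤ 2 * d := by omega
    have h4 : e ≤ Nat.log 2 (2 * d) := (Nat.le_log_iff_pow_le (by norm_num) (by omega)).mpr h3
    exact Dvd.dvd.mul_right (pow_dvd_pow 2 h4) _
  · rw [Nat.totient_prime_pow hp he0] at h1
    have hp1 : 0 < p - 1 := by have := hp.two_le; omega
    have h3 : p ^ (e - 1) ≤ 2 * d / (p - 1) := (Nat.le_div_iff_mul_le hp1).mpr h1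
    have h4 : p - 1 ≤ 2 * d := by
      calc p - 1 ≤ p ^ (e - 1) * (p - 1) := Nat.le_mul_of_pos_left _ (pow_pos hp.pos _)
        _ ≤ 2 * d := h1
    have h5 : 2 * d / (p - 1) ≠ 0 := by
      have : 0 < p ^ (e - 1) := pow_pos hp.pos _
      omega
    have h6 : e - 1 ≤ Nat.log p (2 * d / (p - 1)) :=
      (Nat.le_log_iff_pow_le hp.one_lt h5).mpr h3
    have h7 : p ∈ (Finset.range (2 * d + 2)).filter (fun p => p.Prime ∧ p ≠ 2) := by
      rw [Finset.mem_filter, Finset.mem_range]
      exact ⟨by omega, hp, hp2⟩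
    have h8 : p ^ e ∣ p ^ (Nat.log p (2 * d / (p - 1)) + 1) := pow_dvd_pow p (by omega)
    exact Dvd.dvd.mul_left (dvd_trans h8 (Finset.dvd_prod_of_mem
      (fun p => p ^ (Nat.log p (2 * d / (p - 1)) + 1)) h7)) _

end Pool.Agent.TorusIdx
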